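import Mathlib
import Pool.Agent.Helper43.Ah.Good
import Pool.Agent.Lead.RwFill

/-!
The row game in which one moving point gives strictly increasing slices in consecutive rows.

`κ y` is the number of old points at row `y` (the points `0, …, κ y - 1`), `x y` is what the moving
point `κ y` gives to the row `y` (`0` if nothing), `ν c` is the multiplicity of the point `c`.
-/

set_option autoImplicit false

namespace Pool.Agent.Helper43.Gm

open Finset Pool.Agent.Lead.Sh

/-- number of the rows before `z` at which `c` is not old; if `c` is old at `z` (and `κ` is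
monotone) this is the first row at which `c` is old -/
def st (κ : ℕ → ℕ) (c z : ℕ) : ℕ := ((range z).filter (fun y => κ y ≤ c)).card

/-- the rows before `z` at which `c` was moving and which take more conditions than `z` -/
def mv (κ x ν : ℕ → ℕ) (c z : ℕ) : Finset ℕ :=
  (range z).filter (fun y => κ y = c ∧ 0 < x y ∧ ν c + y < x y + z)

/-- the number of conditions given by the point `c` to the row `z` -/
def nn (κ x ν : ℕ → ℕ) (c z : ℕ) : ℕ :=
  if κ z < c then 0 else if κ z = c then x z else ν c - (z - st κ c z) - (mv κ x ν c z).card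

/-- the number of conditions given to the row `z` -/
def SS (κ x ν : ℕ → ℕ) (z : ℕ) : ℕ := ∑ c ∈ range (κ z + 1), nn κ x ν c z

/-- a run of the game on the rows `0, …, R - 1` -/
structure Run (M R : ℕ) (ν κ x : ℕ → ℕ) : Prop where
  ν1 : ∀ c, 1 ≤ ν c
  νM : ∀ c, ν c ≤ M
  mono : ∀ y, y + 1 < R → κ y ≤ κ (y + 1)
  le : ∀ y < R, x y ≤ ν (κ y)
  inc : ∀ y, y + 1 < R → 0 < x y → κ (y + 1) = κ y → x y < x (y + 1)

/-- the row conditions of `row_inj` -/
def Pri (R : ℕ) (ν : ℕ → ℕ) (n : ℕ → ℕ → ℕ) (π ε : ℕ → ℤ) (N : ℕ) : Prop :=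
  ∀ c < N, ∀ y < R, 0 < n c y → ∃ U : Finset ℕ, y ∉ U ∧ U.card + n c y ≤ ν c ∧
    ∀ y' < R, y' ∉ U → y' ≠ y → π y' - ε c * y' < π y - ε c * y

/-- number of ends of blocks of `Bd` inside the rows `0, …, R - 1` -/
def cl (R : ℕ) (Bd : Finset ℕ) : ℕ := (Bd.filter (fun z => z + 1 < R ∧ z + 1 ∉ Bd)).card

/-- the region whose row `y` (the line `p * d.1 + d.2 = y`) has the cells `s y ≤ d.1 < s y + ℓ y` -/
def Reg (p R : ℕ) (s ℓ : ℕ → ℕ) (D : Finset (ℕ × ℕ)) : Prop :=
  (∀ d, d ∈ D ↔ p * d.1 + d.2 < R ∧ s (p * d.1 + d.2) ≤ d.1 ∧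
    d.1 < s (p * d.1 + d.2) + ℓ (p * d.1 + d.2)) ∧
  ∀ y < R, ∀ k, s y ≤ k → k < s y + ℓ y → p * k ≤ y

end Pool.Agent.Helper43.Gm
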