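import Mathlib
import Pool.Agent.Helper18.CuspMain
import Pool.Agent.Helper18.Tw.Shape

/-!
Statements of the packets, second part: regions (MP_d3128a_ag, window `C * m_10 ^ 2`).
Everything here may assume the first part (`GoalF1`, `GoalF2`) as hypotheses.
-/

set_option autoImplicit false

namespace Pool.Agent.Helper43.Gm

open Finset Pool.Agent.Lead.Sh
open Helper18.Cusp (GoodFor Concl Red kap rr)
open Helper18.Tw (Hgt)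
open Pool.Agent.Lead.Rw (Ind')

/-- what a region `D'` can take: `W` conditions too many are enough to kill everything, `Z` conditions
too few are enough for independence (multiplicities between `1` and `M`) -/
def Takes (D' : Finset (ℕ × ℕ)) (M W Z : ℕ) : Prop :=
  (∀ (m : ℕ → ℕ) (a b : ℕ), a ≤ b → (∀ k, a ≤ k → k < b → 1 ≤ m k ∧ m k ≤ M) →
    D'.card + W ≤ ∑ k ∈ Ico a b, (m k + 1).choose 2 → Inj D' (rows m (Ico a b))) ∧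
  (∀ (m : ℕ → ℕ) (a b : ℕ), a ≤ b → (∀ k, a ≤ k → k < b → 1 ≤ m k ∧ m k ≤ M) →
    ∑ k ∈ Ico a b, (m k + 1).choose 2 + Z ≤ D'.card → Ind' D' (rows m (Ico a b)))

/-- G (triangle). `p = 0`, `R = d + 1`, `s = 0`, `ℓ y = d + 1 - y`. F1 with `Bd = Icc (d + 2 - 2M) d`
(`2M - 1` rows or all rows `1..d`), `R - 1 = d ∈ Bd`: `2 W = 2M(2M-1) + (1+M) M = 5M² - M` (`d = 0`: one point of
multiplicity `≥ 1` kills the single cell, e.g. `Rw.Inj.fill1` or `cell_inj`). F2 with `c0 = 0`,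
`J = d + 2 - 2M`, `ℓ (R-1) = 1`: missing cells `1 + … + (2M-1) = M (2M - 1)`. -/
def GoalG : Prop := ∀ M d : ℕ, 1 ≤ M → ∀ W, 5 * M * M ≤ 2 * W + M → Takes (triD 0 d) M W (M * (2 * M - 1))

/-- G2 (from G to the theorem for all systems): `M = m 0`; `split_mult`, `ind'_ext`, `card_simple`,
`Rw.concl` as in `Rw.tri_case` / `CubicDegree`. `n + e = card - (conditions of the points with
m ≥ 2)`: first alternative: `Ind'` of these, then `ind'_ext` gives both directions. Second alternative: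
`e < 0`, all points (`Ico 0 (N + f)`) at once by the first half of `Takes`. `M = 0` : no points;
(`m 0 ≤ 1` needs nothing, but is covered too). -/
def GoalG2 : Prop := ∀ (s : ℕ) (m : ℕ → ℕ) (d : ℕ), Antitone m → (∀ i, s ≤ i → m i = 0) →
  (2 * (m 0 : ℤ) ^ 2 - m 0 ≤ ((Finset.univ.filter (fun i : Fin s => m (i : ℕ) = 1)).card : ℤ) +
      ((Nat.choose (d + 2) 2 : ℤ) - ∑ i : Fin s, (Nat.choose (m (i : ℕ) + 1) 2 : ℤ)) ∨
    5 * (m 0 : ℤ) ^ 2 - m 0 ≤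
      -2 * ((Nat.choose (d + 2) 2 : ℤ) - ∑ i : Fin s, (Nat.choose (m (i : ℕ) + 1) 2 : ℤ))) →
  Concl s m d

/-- H0 (from `Takes` to `GoodFor`). First alternative: `split_mult` gives `N ≥ 10` and `f` simple points;
`n = f`, `e + n = D.card - S`, so `S + Z ≤ D'.card`; `Ind' D' (rows m (Ico 9 N))`, monotone in `D'`, then
`ind'_ext`. Second: only the `Inj` half of `GoodFor` can have true hypothesis; use the points
`9, …, N + f - 2` for `D'` and `Helper18.Tw.inj_one_more` for the last one (compare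
`Helper18.Tw.goodFor_win`). -/
def GoalH0 : Prop := ∀ (D D' : Finset (ℕ × ℕ)), D' ⊆ D → D.card ≤ D'.card + 1 →
  ∀ (s : ℕ) (m : ℕ → ℕ), Antitone m → (∀ i, s ≤ i → m i = 0) → 2 ≤ m 9 →
  ∀ W Z : ℕ, Takes D' (m 9) W Z →
  ((Z : ℤ) + 1 ≤ ((Finset.univ.filter (fun i : Fin s => m (i : ℕ) = 1)).card : ℤ) +
      ((D.card : ℤ) - ((∑ k ∈ Ico 9 s, (m k + 1).choose 2 : ℕ) : ℤ)) ∨
    (W : ℤ) + ((m 9 + 1).choose 2 : ℕ) ≤ ((∑ k ∈ Ico 9 s, (m k + 1).choose 2 : ℕ) : ℤ) - (D.card : ℤ)) →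
  GoodFor D m (Ico 9 s)

/-- H1 (thick region along the lines `2 x + y = c`). `R = w + 2κ`, `ℓ = rowc 2 1 D'`,
`T = 2M+1`. `Reg 2 R s ℓ D'`: for fixed `c` the set of `x` with `2x ≤ c`, `x < f (c - 2x)` is an interval
(`g x = f (c-2x) - x`; where `f (c - 2x) > 0` and `c - 2x ≥ w` one step changes `g` by at least `+1`
(`Hgt.strict`, twice), on the wall by `-1`; before, `f = 0`); `s c` = its least element. Drop: `row_drop`.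
Thin rows: proof of `thin_thick`: `T ≤ ℓ c` for `2T-1 ≤ c < w + 2κ - 2T`. F1 with
`Bd = Icc 1 (2T-1) ∪ Icc (R-2T+1) (R-1)`: `2 W = 2M(4T-2) + M(M-1) + (1+M)M` (`ℓ (R-1) ≤ 1` by `row_drop`,
`row_top`). F2 with `c0 = 2T-1`, `J = R - 2T + 1`: missing `∑_{c<2T-1} ℓ c ≤ T²` (`ℓ c ≤ c/2 + 1`) and
`∑_{j=1}^{2T-1} ℓ (R-j) ≤ T(2T-1)` (`ℓ (R-j) ≤ j`). -/
def GoalH1 : Prop := ∀ (f : ℕ → ℕ) (w κ M : ℕ) (D' : Finset (ℕ × ℕ)), Hgt f w κ →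
  (∀ d, d ∈ D' ↔ d.1 < f d.2) → 2 ≤ M → 2 * (2 * M + 1) ≤ w → 2 * M + 1 ≤ κ →
  Takes D' M (10 * M ^ 2) (18 * M ^ 2)

/-- H2 (strip, rows played from the top down to `y = 0`). `p = 0`, `R = w + κ`, `s = 0`, `ℓ = f`,
`ℓ' y = f (R-1-y)` nondecreasing (`f` antitone); `f y = 0` for `y ≥ R`. `Bd = Icc 1 κ` (cut at `R-1`):
`2W = 2Mκ + M(M-1) + 2M(κ + 2M) ≤ 13 M²`. F2 with `c0 = κ`, `J = R - M` (if `w > M`, otherwise nothing
to do, `c0 = J`): missing at most `M κ + κ(κ+1)/2 ≤ 4M² + M`. -/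
def GoalH2 : Prop := ∀ (f : ℕ → ℕ) (w κ M : ℕ) (D' : Finset (ℕ × ℕ)), Hgt f w κ →
  (∀ d, d ∈ D' ↔ d.1 < f d.2) → 1 ≤ M → M ≤ κ → κ ≤ 2 * M →
  Takes D' M (7 * M ^ 2) (5 * M ^ 2)

/-- H3 (columns from left to right). Swap the coordinates (`Inj`/`Ind'` are invariant under
`Prod.swap`: search swap in `Helper39/Ah/Shapes.lean`, `Lead/Sh*`, `Lead/Rw*`, `Helper18/Cusp*`). `p = 0`, `R = κ`,
`s = 0`, `ℓ x = h x = #{y : x < f y}` (the number of `y` with `x < f y`, an initial segment as `f` is antitone):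
`h` antitone, drop at most `1` for `x + 1 < κ` (`Hgt.strict`), `h x ≥ 2M+1` iff `x < f (2M)`,
`h (κ-1) ≤ w + 1`, `h (κ - j) ≤ w + j`. F1: `Bd = Icc (f (2M) + 1) (κ - 1)`; if `Bd` is not empty then `w ≤ 2M`, it
has at most `9M - 1` rows and ends at `κ - 1 = R - 1` (so `cl = 0`), `h (κ-1) ≤ 2M`:
`2W = 2M(9M-1) + 3M (3M-1) = 27M² - 5M ≤ 28M²`; if `Bd = ∅` : `2W = 2M(h(κ-1)+2M) ≤ 2M(6M+2) ≤ 28M²`.
F2: `c0 = 0`, `J = min (f (2M) + 1) (κ - M)`: missing `≤ (9M-1) * 2M`, or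
`≤ ∑_{j=1}^{M} (w + j) ≤ M (4M+1) + M(M+1)/2`. -/
def GoalH3 : Prop := ∀ (f : ℕ → ℕ) (w κ M : ℕ) (D' : Finset (ℕ × ℕ)), Hgt f w κ →
  (∀ d, d ∈ D' ↔ d.1 < f d.2) → 2 ≤ M → M ≤ w → w ≤ 4 * M + 1 → 2 * M + 1 ≤ κ →
  κ ≤ f (2 * M) + 9 * (2 * M - w) →
  Takes D' M (14 * M ^ 2) (18 * M ^ 2)

/-- H4 (columns from right to left). As H3 with `ℓ' x = h (κ - 1 - x)`, nondecreasing, `≥ w ≥ M`:
`Bd = ∅`, `2W = 2M(h 0 + 2M) ≤ 2M(4M+1)`; F2 with `c0 = 0`, `J = κ - M`: missing `≤ M(2M+1)`. -/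
def GoalH4 : Prop := ∀ (f : ℕ → ℕ) (w κ M : ℕ) (D' : Finset (ℕ × ℕ)), Hgt f w κ →
  (∀ d, d ∈ D' ↔ d.1 < f d.2) → 1 ≤ M → M ≤ w → M ≤ κ → f (2 * M + 1) = 0 →
  Takes D' M (5 * M ^ 2) (3 * M ^ 2)

/-- RS (sharpened `Helper18.Tw.rr_slow`, same proof; and the top of the region: a polynomial of degree
less than its multiplicity at a point is zero). -/
def GoalRS : Prop := ∀ (n : ℕ) (a : ℕ → ℕ), Red n a →
  (∀ j, 2 * j + 1 ≤ n - a 0 → 3 * j + 1 ≤ n → a 8 ≤ j → kap n a ≤ rr n a j + 9 * (j - a 8)) ∧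
  (∀ j, n < a 0 + 2 * j → rr n a j = 0)

/-- I (assembly). As `Helper18.Tw.main_win`: `3 d ≤ ∑_{i<9} m i`: `main_zero`; `m 9 ≤ 1`: `goodFor_simple`.
Otherwise `M = m 9 ≥ 2`, `w = m 8 ≥ M`, `κ = kap > 0`.
(1) `κ < M`: `k ≥ 2` with `M ≤ k κ < 2M`, `Nod.hex`, `rk_hgt`, `mem_DR'`, H2, H0 (`D = D'`), `slab_finish`.
(2) `M ≤ κ ≤ 2M`: cubic (`main_cubic`: `fr_hgt`, `mem_DSr`, `card_DSr`, `chi_DS`, `cubic_finish`), H2.
(3) `κ ≥ 2M+1`, `w ≥ 4M+2`: cubic, H1. (4) `κ ≥ 2M+1`, `w ≤ 4M+1`: cubic; if `d ≤ m 0 + 4M + 1` or `d ≤ 6M+2`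
then `fr (2M+1) = 0` (RS, `rr_zero`): H4; else H3 (RS at `j = 2M`, or the wall if `w > 2M`).
Arithmetic: `14 M² + choose (M+1) 2 ≤ 15 M²`, `18M² + 1 ≤ 19M²` (`M ≥ 2`). -/
def GoalI : Prop := ∀ (s : ℕ) (m : ℕ → ℕ) (d : ℕ), Antitone m → (∀ i, s ≤ i → m i = 0) →
  m 0 + m 1 + m 2 ≤ d →
  (19 * (m 9 : ℤ) ^ 2 ≤ ((Finset.univ.filter (fun i : Fin s => m (i : ℕ) = 1)).card : ℤ) +
      ((Nat.choose (d + 2) 2 : ℤ) - ∑ i : Fin s, (Nat.choose (m (i : ℕ) + 1) 2 : ℤ)) ∨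
    15 * (m 9 : ℤ) ^ 2 ≤
      - ((Nat.choose (d + 2) 2 : ℤ) - ∑ i : Fin s, (Nat.choose (m (i : ℕ) + 1) 2 : ℤ))) →
  Concl s m d

end Pool.Agent.Helper43.Gm
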