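import Mathlib
import Pool.Agent.Helper43.Gm.Defs

/-!
Statements of the packets (MP_d3128a_ag, window `C * m_10 ^ 2`).
-/

set_option autoImplicit false

namespace Pool.Agent.Helper43.Gm

open Finset Pool.Agent.Lead.Sh

/-- A (skew rows). Adapt `Pool.Agent.Helper43.Ah.row_inj` (file Ah/Row.lean, 305 lines).
Points: `P c = (z_c * e ^ (p * ε c), e ^ (ε c))` with `z_c = c + 1` (nonzero, distinct), so that
`(P c).1 ^ d.1 * (P c).2 ^ d.2 = z_c ^ d.1 * e ^ (ε c * (p * d.1 + d.2))`. Functions: for a point with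
nonzero coordinates the conditions of order `< ν` give `∑ c_d x^d.1 y^d.2 G(d) = 0` for all `G` with
`Pool.Agent.Lead.Rw.Sm ν G` (put `c'_d = c_d x^d.1 y^d.2`; `E o d x y = E o d 1 1 * x^d.1 y^d.2 / (x^o.1 y^o.2)`),
and `G(d) = choose d.1 a * ∏_{y' ∈ U} (p * d.1 + d.2 - y')` is `Sm (a + 1 + U.card)` (`Sm.prodlam`).
At `e = 0` only the row `y` survives: `∑_{d in row y} γ_d choose(d.1, a) z_c^{d.1} = 0` for `a < n c y`,
i.e. `(Z - z_c)^{n c y}` divides `∑ γ_d Z^{d.1} = Z^{s y} * h`, `deg h < ℓ y`; so `h = 0`. -/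
def GoalA : Prop := ∀ (p R : ℕ) (s ℓ : ℕ → ℕ) (D : Finset (ℕ × ℕ)),
  (∀ d ∈ D, p * d.1 + d.2 < R ∧ s (p * d.1 + d.2) ≤ d.1 ∧
    d.1 < s (p * d.1 + d.2) + ℓ (p * d.1 + d.2)) →
  ∀ (N : ℕ) (ν : ℕ → ℕ) (n : ℕ → ℕ → ℕ) (π ε : ℕ → ℤ), Pri R ν n π ε N →
  (∀ y < R, ℓ y ≤ ∑ c ∈ range N, n c y) → Inj D (rows ν (range N))

/-- B (prices of a run). For fixed `c` let `b + 1 = st` be the first row with `κ > c` (if any), `a` the
first row with `κ = c, 0 < x`. By `inc` the moving rows of `c` are exactly `a, …, b`, `x` is strictly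
increasing on them. For a moving row `y'` put `i y' = ν c - x y' - (b - y')` (natural; `x y' + (b - y')
≤ x b ≤ ν c`). The row `st + t` has `nn = ν c - t - #{y' : i y' ≤ t}` (`ν c + y' < x y' + z` with
`z = st + t` says `i y' ≤ t`). Prices: `q = 4M+4`, `G = 2q(4M+5)`, `B = (R+1) * G + 1`, `u c = B ^ (E - c)`
with `E` larger than all `κ y + 1` (`y < R`), `ε c = 2 q (u c)`, `π 0 = 0`, `π t - π (t-1) = Δ t` with, for
`c = κ (t-1)`: if `0 < x (t-1)` and `κ t = c`: `Δ t = ε c * (x t - x (t-1)) + 2 * u c`; if `0 < x (t-1)`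
and `κ t > c`: `Δ t = ε c * (ν c - x (t-1)) + q * u c`; if `x (t-1) = 0`: `Δ t = (4M+4) * ε c`. So
`u c ≤ Δ t ≤ G * u c`, and the sum of all `Δ t` with `κ (t-1) > c` is `< u c`. With
`V y = π y - ε c * y`: (i) for `y ≥ st`: `V (y+1) < V y`; (ii) `V` is strictly increasing on `a..b`;
(iii) `V st - V y' = ε c * (i y' - 1) + u c * (q + 2 (b - y'))`, `2 (b - y') < q / 2`, and
`V (st + t) = V st - t * ε c + σ`, `0 ≤ σ < u c`; hence `V (st+t) > V y'` iff `t < i y'`, and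
`V (st+t) < V y'` iff `i y' ≤ t`; (iv) for `y` before all rows used by `c` (i.e. `y < a`, or `y < st` if
there is no moving row): each step `Δ t - ε c ≥ (4M+3) * ε c` for `t` up to the first used row, so
`V y` is smaller than `V` at all rows used by `c` (used rows: `a..b` and `st + t` with `nn > 0`, so
`t < ν c`). For `(c,y)` with `nn > 0` take `U = {y' < R : y' ≠ y, V y' ≥ V y}` = the better rows:
for `y = st + t`: `st, …, st+t-1` and the `y'` with `i y' ≤ t`; for `y` moving: `y+1, …, b` and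
`st + t`, `t < i y`. In both cases `U.card ≤ ν c - nn c y`. -/
def GoalB : Prop := ∀ (M R : ℕ) (ν κ x : ℕ → ℕ), Run M R ν κ x →
  ∃ π ε : ℕ → ℤ, ∀ N, Pri R ν (nn κ x ν) π ε N

/-- C (a complete point gives all its conditions). Notation of B, `μ = st - a` the number of moving
rows. `∑ y, nn c y = ∑_{y'=a}^{b} x y' + ∑_{t < ν - μ} (ν - t - #{y' : i y' ≤ t})` (for `t ≥ ν - μ` all
`i y' ≤ i a ≤ ν - μ ≤ t`, so `nn = 0`; for `t < ν - μ` the subtraction is honest), and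
`∑_{t < ν-μ} #{y' : i y' ≤ t} = ∑_{y'} (ν - μ - i y') = ∑_{y'} (x y' + (b - y') - μ)`; the total is
`∑_{y'} (μ - (b - y')) + ∑_{t<ν-μ} (ν - t) = (1 + … + μ) + (ν + … + (μ+1)) = choose (ν+1) 2`. -/
def GoalC : Prop := ∀ (M R : ℕ) (ν κ x : ℕ → ℕ), Run M R ν κ x → ∀ c z0 : ℕ, z0 < R → c < κ z0 →
  z0 + M ≤ R → ∑ y ∈ range R, nn κ x ν c y = (ν c + 1).choose 2

/-- D (the greedy game). Induction on the number of rows done. `nn κ x ν c z` only depends on `κ, x` on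
`[0, z]`. For `κ z > c`: `nn c (z+1) ≤ nn c z - 1`; at the first old row `nn ≤ ν c`, and
`nn ≤ ν c - 1` if the row before had `κ = c`, `x = ν c`. Invariants at row `y`, `E = SS y - ℓ y ≥ 0`:
`0 < x y → E = 0`; `E ≤ M`; `y ∈ Bd → x y = 0`; and
`2 W y + [y ∉ Bd] * E (E-1) ≤ 2 M #(Bd ∩ [0,y]) + M (M-1) #{z ∈ Bd : z < y, z + 1 ∉ Bd}`, `W y = ∑_{z ≤ y} E z`.
Step to row `r = y + 1`; `A = ∑_{c < κ y} nn c r ≤ (SS y - x y) - o` where `o` is the number of old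
points `c < κ y` with `nn c y > 0`.
BAD row (`r ∈ Bd`): if `0 < x y` make the moving point old (it adds `v ≤ ν ≤ M`); then, while the sum is
`< ℓ r`, add the next point as an old one (it adds its `ν ≥ 1`); `x r = 0`. New `E ≤ max (M-1) (sum before
the additions - ℓ r) ≤ M` by the drop condition (`x y > 0`: `A + v ≤ ℓ y - x y + M ≤ ℓ r + M`; `x y = 0`:
`A ≤ ℓ y + E - 1 ≤ ℓ r + E` or `SS y = 0`).
GOOD row, `0 < x y` (so `E = 0`): `need = ℓ r - A`. Then `need > x y`, or `need = x y = ν (κ y)`: if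
`ℓ y ≤ ℓ r, M ≤ ℓ y`: `need ≥ x y + o`, and if `o = 0` then `x y = SS y = ℓ y ≥ M ≥ ν`; if `2M+1 ≤ ℓ y`: `o ≥ 2`
and `need ≥ x y + o - 1`. If `x y < need ≤ ν (κ y)`: keep `κ`, `x r = need`, `E = 0`. Otherwise make the moving
point old, `need' = need - v ≥ 0`; while `need' > ν` of the next point add it as old; then `x r = need'`
(`≤ ν` of the next point), `E = 0`. GOOD row, `x y = 0`: if `A ≥ ℓ r`: keep `κ`, `x r = 0`, `E' = A - ℓ r ≤ E - 1`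
(`o ≥ 1`, and `o ≥ 3` in the second case), or if `E = 0` impossible unless `A = ℓ r`... (`A ≤ ℓ y - o < ℓ r`
or `= `, `E' = 0`); if `A < ℓ r` proceed with `need' = ℓ r - A` as before, `E' = 0`.
Row `0` (not in `Bd`): `need' = ℓ 0`, the same, `E = 0`. The potential: good after good
`E' ≤ E - 1` or `0`; good after bad `E' ≤ M - 1`; bad: `E' ≤ M`. -/
def GoalD : Prop := ∀ (M R : ℕ) (ν ℓ : ℕ → ℕ) (Bd : Finset ℕ), 1 ≤ M → (∀ c, 1 ≤ ν c) →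
  (∀ c, ν c ≤ M) → 0 ∉ Bd → (∀ y, y + 1 < R → ℓ y ≤ ℓ (y + 1) + 1) →
  (∀ y, y + 1 < R → y + 1 ∉ Bd → (ℓ y ≤ ℓ (y + 1) ∧ M ≤ ℓ y) ∨ 2 * M + 1 ≤ ℓ y) →
  ∃ κ x : ℕ → ℕ, Run M R ν κ x ∧ (∀ y < R, ℓ y ≤ SS κ x ν y ∧ SS κ x ν y ≤ ℓ y + M) ∧
    (∀ y < R, y ∈ Bd → x y = 0) ∧
    2 * ∑ y ∈ range R, (SS κ x ν y - ℓ y) ≤ 2 * M * Bd.card + M * (M - 1) * cl R Bd

/-- E1 (filling). Take `κ, x` from D on `R` rows; `K = κ (R-1) + (if 0 < x (R-1) then 1 else 0)`; extend by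
`κ y = K`, `x y = 0` for `y ≥ R`: a `Run` on `R + M` rows, in which all `c < K` are complete (C with
`z0 = R`), so `∑_{c<K} choose (ν c + 1) 2 = ∑_{y < R + M} ∑_{c < K} nn c y`; on `y < R` the inner sum is
`SS y` (`nn c y = 0` for `κ y < c`; and if `κ y = K` then `x y = 0`), on `y ≥ R` it is at most
`SS (R-1) + M ≤ ℓ (R-1) + 2M` at `R`, and nonincreasing; if `R-1 ∈ Bd` then `x (R-1) = 0` and the sum at
`R + t` is at most `SS (R-1) - 1 - t`. Hence `∑_{c<K} choose ≤ ∑ ℓ + W` and so `K ≤ N` (`ν ≥ 1`). Prices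
from B (on the `R` rows). -/
def GoalE1 : Prop := ∀ (M R : ℕ) (ν ℓ : ℕ → ℕ) (Bd : Finset ℕ), 1 ≤ M → 1 ≤ R → (∀ c, 1 ≤ ν c) →
  (∀ c, ν c ≤ M) → 0 ∉ Bd → (∀ y, y + 1 < R → ℓ y ≤ ℓ (y + 1) + 1) →
  (∀ y, y + 1 < R → y + 1 ∉ Bd → (ℓ y ≤ ℓ (y + 1) ∧ M ≤ ℓ y) ∨ 2 * M + 1 ≤ ℓ y) →
  ∀ W N : ℕ, ((R - 1 ∈ Bd ∧ 2 * M * Bd.card + M * (M - 1) * cl R Bd +
        (ℓ (R - 1) + M) * (ℓ (R - 1) + M - 1) ≤ 2 * W) ∨
      2 * M * Bd.card + M * (M - 1) * cl R Bd + 2 * M * (ℓ (R - 1) + 2 * M) ≤ 2 * W) →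
  ∑ y ∈ range R, ℓ y + W ≤ ∑ c ∈ range N, (ν c + 1).choose 2 →
  ∃ (n : ℕ → ℕ → ℕ) (π ε : ℕ → ℤ), Pri R ν n π ε N ∧ ∀ y < R, ℓ y ≤ ∑ c ∈ range N, n c y

/-- E2 (packing). Take `κ, x` from D on the rows `0, …, J - 1` with `Bd = ∅` (so `SS = ℓ` there), `J ≥ 1`
(if `J = 0` then `N = 0`). `K = κ (J-1) + (if 0 < x (J-1) then 1 else 0)`; extend by `κ y = K`, `x y = 0` for
`y ≥ J`. Since `∑_{c<N} choose (ν c+1) 2 ≤ ∑_{y<J} ℓ y = ∑_{c<K} (part of c on y < J) ≤ ∑_{c<K} choose (ν c + 1) 2`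
we get `N ≤ K`. If `N ≤ κ (J-1)`: for `y ≥ J-1` the sum of the first `N` starts `≤ ℓ (J-1)` and drops by at
least one per row while positive, so stays `≤ ℓ y` up to row `R-1`; it is `0` from row `R` on if
`ℓ (R-1) ≤ 1`; if `J + M ≤ R` all points are complete before row `R`. If `N = K = κ (J-1) + 1`: equality
everywhere, all `c < N` are complete before row `J` and give `0` later. In both cases the point `c < N`
gives `choose (ν c+1) 2` conditions on `y < R` (C on `R + M` rows). -/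
def GoalE2 : Prop := ∀ (M R J : ℕ) (ν ℓ : ℕ → ℕ), 1 ≤ M → (∀ c, 1 ≤ ν c) → (∀ c, ν c ≤ M) → J ≤ R →
  (∀ y, y + 1 < R → ℓ y ≤ ℓ (y + 1) + 1) →
  (∀ y, y + 1 < J → (ℓ y ≤ ℓ (y + 1) ∧ M ≤ ℓ y) ∨ 2 * M + 1 ≤ ℓ y) →
  (ℓ (R - 1) ≤ 1 ∨ J + M ≤ R) →
  ∀ N : ℕ, ∑ c ∈ range N, (ν c + 1).choose 2 ≤ ∑ y ∈ range J, ℓ y →
  ∃ (n : ℕ → ℕ → ℕ) (π ε : ℕ → ℤ), Pri R ν n π ε N ∧
    (∀ y < R, ∑ c ∈ range N, n c y ≤ ℓ y) ∧
    ∑ y ∈ range R, ∑ c ∈ range N, n c y = ∑ c ∈ range N, (ν c + 1).choose 2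

/-- F (from the game to regions; `rev = true` means that the rows are played in the order
`R-1, …, 0`). `ℓ' y = ℓ y` or `ℓ (R-1-y)`. Reversal: `n' c y = n c (R-1-y)`, `π' y = π (R-1-y)`, `ε' c = - ε c`
satisfy `Pri` as well. Injectivity: E1 + A + relabelling `c ↦ a + c` (`Ah.inj_relabel`). Independence: E2; the
subset `D'' = {d ∈ D : d.1 < s + ∑_{c<N} n c (row d)}` has `∑ y, ∑ c, n c y = card of the rows` elements, `Inj`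
by A with `ℓ'' y = ∑ c, n c y`; this is `Ind'`. In F2 apply E2 to the rows `c0, c0 + 1, …` (shifted by
`c0`); on the rows `y < c0` put `n c y = 0` and `π y = - L` with `L` huge, so that `Pri` holds on all rows.
`D.card = ∑ y ∈ range R, ℓ y` by the second half of `Reg`. -/
def GoalF1 : Prop := ∀ (p M R : ℕ) (s ℓ ℓ' : ℕ → ℕ) (D : Finset (ℕ × ℕ)) (Bd : Finset ℕ),
  Reg p R s ℓ D → (ℓ' = ℓ ∨ ∀ y < R, ℓ' y = ℓ (R - 1 - y)) → 1 ≤ M → 1 ≤ R →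
  0 ∉ Bd → (∀ y, y + 1 < R → ℓ' y ≤ ℓ' (y + 1) + 1) →
  (∀ y, y + 1 < R → y + 1 ∉ Bd → (ℓ' y ≤ ℓ' (y + 1) ∧ M ≤ ℓ' y) ∨ 2 * M + 1 ≤ ℓ' y) →
  ∀ (m : ℕ → ℕ) (a b W : ℕ), a ≤ b → (∀ k, a ≤ k → k < b → 1 ≤ m k ∧ m k ≤ M) →
  ((R - 1 ∈ Bd ∧ 2 * M * Bd.card + M * (M - 1) * cl R Bd +
        (ℓ' (R - 1) + M) * (ℓ' (R - 1) + M - 1) ≤ 2 * W) ∨
      2 * M * Bd.card + M * (M - 1) * cl R Bd + 2 * M * (ℓ' (R - 1) + 2 * M) ≤ 2 * W) →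
  D.card + W ≤ ∑ k ∈ Ico a b, (m k + 1).choose 2 → Inj D (rows m (Ico a b))

def GoalF2 : Prop := ∀ (p M R c0 J : ℕ) (s ℓ ℓ' : ℕ → ℕ) (D : Finset (ℕ × ℕ)),
  Reg p R s ℓ D → (ℓ' = ℓ ∨ ∀ y < R, ℓ' y = ℓ (R - 1 - y)) → 1 ≤ M → c0 ≤ J → J ≤ R →
  (∀ y, y + 1 < R → ℓ' y ≤ ℓ' (y + 1) + 1) →
  (∀ y, c0 ≤ y → y + 1 < J → (ℓ' y ≤ ℓ' (y + 1) ∧ M ≤ ℓ' y) ∨ 2 * M + 1 ≤ ℓ' y) →
  (ℓ' (R - 1) ≤ 1 ∨ J + M ≤ R) →
  ∀ (m : ℕ → ℕ) (a b : ℕ), a ≤ b → (∀ k, a ≤ k → k < b → 1 ≤ m k ∧ m k ≤ M) →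
  ∑ k ∈ Ico a b, (m k + 1).choose 2 ≤ ∑ y ∈ Ico c0 J, ℓ' y →
  Pool.Agent.Lead.Rw.Ind' D (rows m (Ico a b))

end Pool.Agent.Helper43.Gm
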