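import Mathlib
import Pool.Agent.Helper43.Gm.Goals

set_option autoImplicit false

namespace Pool.Agent.Helper43.Gm.PkD

open Finset Pool.Agent.Lead.Sh

/-- the value of an old point -/
def od (κ x ν : ℕ → ℕ) (c z : ℕ) : ℕ := ν c - (z - st κ c z) - (mv κ x ν c z).card

theorem nn_eq (κ x ν : ℕ → ℕ) (c z : ℕ) : nn κ x ν c z =
    if κ z < c then 0 else if κ z = c then x z else od κ x ν c z := rfl

theorem SS_eq (κ x ν : ℕ → ℕ) (z : ℕ) :
    SS κ x ν z = ∑ c ∈ range (κ z), od κ x ν c z + x z := by
  unfold SS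
  rw [sum_range_succ]
  congr 1
  · apply sum_congr rfl
    intro c hc
    rw [mem_range] at hc
    rw [nn_eq, if_neg (by omega), if_neg (by omega)]
  · rw [nn_eq, if_neg (lt_irrefl _), if_pos rfl]

variable {κ κ' x x' ν : ℕ → ℕ} {c y z M R : ℕ}

theorem st_congr (h : ∀ y < z, κ y = κ' y) : st κ c z = st κ' c z := by
  unfold st
  congr 1
  apply filter_congr
  intro y hy
  rw [h y (mem_range.1 hy)]

theorem mv_congr (h : ∀ y < z, κ y = κ' y) (h' : ∀ y < z, x y = x' y) :
    mv κ x ν c z = mv κ' x' ν c z := by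
  unfold mv
  apply filter_congr
  intro y hy
  rw [h y (mem_range.1 hy), h' y (mem_range.1 hy)]

theorem od_congr (h : ∀ y < z, κ y = κ' y) (h' : ∀ y < z, x y = x' y) :
    od κ x ν c z = od κ' x' ν c z := by
  unfold od
  rw [st_congr h, mv_congr h h']

theorem SS_congr (h : ∀ y ≤ z, κ y = κ' y) (h' : ∀ y ≤ z, x y = x' y) :
    SS κ x ν z = SS κ' x' ν z := by
  rw [SS_eq, SS_eq, h z le_rfl, h' z le_rfl]
  congr 1
  apply sum_congr rfl
  intro c _
  exact od_congr (fun y hy => h y hy.le) (fun y hy => h' y hy.le)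

theorem st_le : st κ c z ≤ z := by
  unfold st
  exact (card_filter_le _ _).trans (by rw [card_range])

theorem od_le : od κ x ν c z ≤ ν c := by
  unfold od; omega

theorem od_succ (h : c < κ y) : od κ x ν c (y + 1) ≤ od κ x ν c y - 1 := by
  have h1 : st κ c (y + 1) = st κ c y := by
    unfold st
    rw [range_add_one, filter_insert, if_neg (by omega)]
  have h2 : (mv κ x ν c y).card ≤ (mv κ x ν c (y + 1)).card := by
    apply card_le_card
    intro t ht
    unfold mv at ht ⊢
    rw [mem_filter, mem_range] at ht ⊢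
    exact ⟨by omega, ht.2.1, ht.2.2.1, by omega⟩
  have h3 : st κ c y ≤ y := st_le
  unfold od
  rw [h1]
  omega

theorem mono_le (hR : Run M (y + 1) ν κ x) : ∀ t z, z + t = y → κ z ≤ κ y := by
  intro t
  induction t with
  | zero => intro z hz; rw [show z = y by omega]
  | succ t ih =>
    intro z hz
    have h1 := hR.mono z (by omega)
    have h2 := ih (z + 1) (by omega)
    omega

theorem st_full (h : ∀ z ≤ y, κ z ≤ c) : st κ c (y + 1) = y + 1 := by
  unfold st
  rw [filter_true_of_mem, card_range]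
  intro z hz
  rw [mem_range] at hz
  exact h z (by omega)

theorem od_new (hR : Run M (y + 1) ν κ x) (hc : κ y < c) : od κ x ν c (y + 1) = ν c := by
  have h0 : ∀ z ≤ y, κ z ≤ κ y := fun z hz => mono_le hR (y - z) z (by omega)
  have h1 : st κ c (y + 1) = y + 1 := st_full (fun z hz => (h0 z hz).trans hc.le)
  have h2 : mv κ x ν c (y + 1) = ∅ := by
    unfold mv
    rw [filter_eq_empty_iff]
    intro z hz
    rw [mem_range] at hz
    have := h0 z (by omega)
    omega
  unfold od
  rw [h1, h2, card_empty]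
  omega

theorem x_zero (hR : Run M (y + 1) ν κ x) (hx : x y = 0) :
    ∀ t z, z + t = y → κ z = κ y → x z = 0 := by
  intro t
  induction t with
  | zero => intro z hz _; rw [show z = y by omega]; exact hx
  | succ t ih =>
    intro z hz hk
    have h1 := hR.mono z (by omega)
    have h2 := mono_le hR t (z + 1) (by omega)
    have h3 := ih (z + 1) (by omega) (by omega)
    by_contra hne
    have h4 := hR.inc z (by omega) (Nat.pos_of_ne_zero hne) (by omega)
    omega

theorem od_still (hR : Run M (y + 1) ν κ x) (hx : x y = 0) :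
    od κ x ν (κ y) (y + 1) = ν (κ y) := by
  have h0 : ∀ z ≤ y, κ z ≤ κ y := fun z hz => mono_le hR (y - z) z (by omega)
  have h1 : st κ (κ y) (y + 1) = y + 1 := st_full h0
  have h2 : mv κ x ν (κ y) (y + 1) = ∅ := by
    unfold mv
    rw [filter_eq_empty_iff]
    intro z hz
    rw [mem_range] at hz
    rintro ⟨h3, h4, _⟩
    have := x_zero hR hx (y - z) z (by omega) h3
    omega
  unfold od
  rw [h1, h2, card_empty]
  omega

theorem od_full (hx : x y = ν (κ y)) (h0 : 0 < ν (κ y)) :
    od κ x ν (κ y) (y + 1) ≤ ν (κ y) - 1 := by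
  have h2 : 0 < (mv κ x ν (κ y) (y + 1)).card := by
    apply card_pos.2
    refine ⟨y, ?_⟩
    unfold mv
    rw [mem_filter, mem_range]
    refine ⟨by omega, rfl, by omega, by omega⟩
  unfold od
  omega

/-- fill exactly -/
theorem fill (h1 : ∀ c, 1 ≤ ν c) : ∀ need k : ℕ, ∃ K X, k ≤ K ∧ X ≤ ν K ∧
    ∑ c ∈ Ico k K, ν c + X = need ∧ (0 < need → 0 < X) := by
  intro need
  induction need using Nat.strong_induction_on with
  | _ need ih =>
    intro k
    rcases Nat.lt_or_ge (ν k) need with h | h
    · obtain ⟨K, X, hK, hX, hs, h3⟩ := ih (need - ν k) (by have := h1 k; omega) (k + 1)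
      refine ⟨K, X, by omega, hX, ?_, fun _ => h3 (by omega)⟩
      rw [sum_eq_sum_Ico_succ_bot (by omega : k < K)]
      omega
    · exact ⟨k, need, le_rfl, h, by simp, fun h => h⟩

/-- fill with full points -/
theorem fillBad (h1 : ∀ c, 1 ≤ ν c) (hM : ∀ c, ν c ≤ M) : ∀ need k : ℕ, ∃ K, k ≤ K ∧
    need ≤ ∑ c ∈ Ico k K, ν c ∧ (∑ c ∈ Ico k K, ν c ≤ need + (M - 1)) ∧
    (need = 0 → K = k) := by
  intro need
  induction need using Nat.strong_induction_on with
  | _ need ih =>
    intro k
    rcases Nat.eq_zero_or_pos need with h0 | h0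
    · subst h0
      exact ⟨k, le_rfl, by simp, by simp, fun _ => rfl⟩
    · rcases Nat.lt_or_ge (ν k) need with h | h
      · obtain ⟨K, hK, ha, hb, _⟩ := ih (need - ν k) (by have := h1 k; omega) (k + 1)
        refine ⟨K, by omega, ?_, ?_, fun h => by omega⟩
        · rw [sum_eq_sum_Ico_succ_bot (by omega : k < K)]
          omega
        · rw [sum_eq_sum_Ico_succ_bot (by omega : k < K)]
          omega
      · refine ⟨k + 1, by omega, ?_, ?_, fun h => by omega⟩
        · rw [Nat.Ico_succ_singleton, sum_singleton]; exact h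
        · rw [Nat.Ico_succ_singleton, sum_singleton]
          have := hM k
          omega

theorem T_moved (hR : Run M (y + 1) ν κ x) {K : ℕ} (hK : κ y + 1 ≤ K) :
    ∑ c ∈ range K, od κ x ν c (y + 1) = ∑ c ∈ range (κ y), od κ x ν c (y + 1) +
      od κ x ν (κ y) (y + 1) + ∑ c ∈ Ico (κ y + 1) K, ν c := by
  rw [← sum_range_succ, range_eq_Ico, range_eq_Ico,
    ← sum_Ico_consecutive _ (Nat.zero_le (κ y + 1)) hK]
  congr 1
  apply sum_congr rfl
  intro c hc
  rw [mem_Ico] at hc
  exact od_new hR (by omega)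

theorem T_still (hR : Run M (y + 1) ν κ x) (hx : x y = 0) {K : ℕ} (hK : κ y ≤ K) :
    ∑ c ∈ range K, od κ x ν c (y + 1) = ∑ c ∈ range (κ y), od κ x ν c (y + 1) +
      ∑ c ∈ Ico (κ y) K, ν c := by
  rw [range_eq_Ico, range_eq_Ico, ← sum_Ico_consecutive _ (Nat.zero_le (κ y)) hK]
  congr 1
  apply sum_congr rfl
  intro c hc
  rw [mem_Ico] at hc
  rcases Nat.lt_or_ge (κ y) c with h | h
  · exact od_new hR h
  · rw [show c = κ y by omega]; exact od_still hR hx

/-- the sum over the old points drops by their number -/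
theorem drop (hM : ∀ c, ν c ≤ M) : ∃ o, ∑ c ∈ range (κ y), od κ x ν c (y + 1) + o ≤
      ∑ c ∈ range (κ y), od κ x ν c y ∧ ∑ c ∈ range (κ y), od κ x ν c y ≤ M * o := by
  refine ⟨((range (κ y)).filter (fun c => 0 < od κ x ν c y)).card, ?_, ?_⟩
  · rw [card_filter, ← sum_add_distrib]
    apply sum_le_sum
    intro c hc
    rw [mem_range] at hc
    have := od_succ (x := x) (ν := ν) hc
    split_ifs with h <;> omega
  · rw [card_filter, mul_sum]
    apply sum_le_sum
    intro c _
    have h1 : od κ x ν c y ≤ ν c := od_le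
    have h2 := hM c
    split_ifs with h <;> omega

/-- one more row -/
theorem extend (hR : Run M (y + 1) ν κ x) {K X : ℕ} (hK : κ y ≤ K) (hX : X ≤ ν K)
    (hinc : 0 < x y → K = κ y → x y < X) :
    ∃ κ' x', Run M (y + 2) ν κ' x' ∧ (∀ z ≤ y, κ' z = κ z) ∧ (∀ z ≤ y, x' z = x z) ∧
      κ' (y + 1) = K ∧ x' (y + 1) = X ∧ (∀ z ≤ y, SS κ' x' ν z = SS κ x ν z) ∧
      SS κ' x' ν (y + 1) = ∑ c ∈ range K, od κ x ν c (y + 1) + X := by
  have e1 : ∀ z ≤ y, Function.update κ (y + 1) K z = κ z := fun z hz =>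
    Function.update_of_ne (by omega) _ _
  have e2 : ∀ z ≤ y, Function.update x (y + 1) X z = x z := fun z hz =>
    Function.update_of_ne (by omega) _ _
  have e3 : Function.update κ (y + 1) K (y + 1) = K := Function.update_self _ _ _
  have e4 : Function.update x (y + 1) X (y + 1) = X := Function.update_self _ _ _
  refine ⟨Function.update κ (y + 1) K, Function.update x (y + 1) X, ?_, e1, e2, e3, e4, ?_, ?_⟩
  · refine ⟨hR.ν1, hR.νM, ?_, ?_, ?_⟩
    · intro z hz
      rcases Nat.lt_or_ge z y with h | h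
      · rw [e1 z h.le, e1 (z + 1) (by omega)]
        exact hR.mono z (by omega)
      · rw [show z = y by omega, e1 y le_rfl, e3]; exact hK
    · intro z hz
      rcases Nat.lt_or_ge y z with h | h
      · rw [show z = y + 1 by omega, e3, e4]; exact hX
      · rw [e1 z h, e2 z h]; exact hR.le z (by omega)
    · intro z hz
      rcases Nat.lt_or_ge z y with h | h
      · rw [e1 z h.le, e1 (z + 1) (by omega), e2 z h.le, e2 (z + 1) (by omega)]
        exact hR.inc z (by omega)
      · rw [show z = y by omega, e1 y le_rfl, e3, e2 y le_rfl, e4]; exact hinc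
  · intro z hz
    exact SS_congr (fun t ht => e1 t (by omega)) (fun t ht => e2 t (by omega))
  · rw [SS_eq, e3, e4]
    congr 1
    apply sum_congr rfl
    intro c _
    exact od_congr (fun t ht => e1 t (by omega)) (fun t ht => e2 t (by omega))

/-- the choice for the next row -/
theorem choice (hR : Run M (y + 1) ν κ x) (l0 l1 : ℕ) (bad : Prop)
    (hlo : l0 ≤ SS κ x ν y) (hhi : SS κ x ν y ≤ l0 + M) (hex : 0 < x y → SS κ x ν y = l0)
    (hd : l0 ≤ l1 + 1) (hg : ¬ bad → (l0 ≤ l1 ∧ M ≤ l0) ∨ 2 * M + 1 ≤ l0) :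
    ∃ K X, κ y ≤ K ∧ X ≤ ν K ∧ (0 < x y → K = κ y → x y < X) ∧
      l1 ≤ ∑ c ∈ range K, od κ x ν c (y + 1) + X ∧
      ∑ c ∈ range K, od κ x ν c (y + 1) + X ≤ l1 + M ∧
      (0 < X → ∑ c ∈ range K, od κ x ν c (y + 1) + X = l1) ∧
      (bad → X = 0) ∧
      (¬ bad → ∑ c ∈ range K, od κ x ν c (y + 1) + X ≤ l1 + (SS κ x ν y - l0 - 1)) := by
  have h1M : 1 ≤ M := le_trans (hR.ν1 0) (hR.νM 0)
  obtain ⟨o, ho1, ho2⟩ := drop (κ := κ) (x := x) (y := y) hR.νM
  have hSS := SS_eq κ x ν y
  have hxle := hR.le y (by omega)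
  have hν1 := hR.ν1 (κ y)
  have hνM := hR.νM (κ y)
  set A := ∑ c ∈ range (κ y), od κ x ν c (y + 1) with hA
  set B := ∑ c ∈ range (κ y), od κ x ν c y with hB
  have ho0 : o = 0 → B = 0 := by rintro rfl; omega
  have ho1' : B ≠ 0 → 1 ≤ o := by
    intro h; by_contra hcon; exact h (ho0 (by omega))
  have ho2' : M + 1 ≤ B → 2 ≤ o := by
    intro h
    by_contra hcon
    have : M * o ≤ M * 1 := Nat.mul_le_mul_left _ (by omega)
    omega
  by_cases hb : bad
  · -- a bad row
    rcases Nat.eq_zero_or_pos (x y) with hx | hx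
    · obtain ⟨K, hK, ha, hb', hc⟩ := fillBad hR.ν1 hR.νM (l1 - A) (κ y)
      have hT := T_still hR hx hK
      rw [← hA] at hT
      refine ⟨K, 0, hK, Nat.zero_le _, by omega, by omega, ?_, by omega, fun _ => rfl,
        fun h => absurd hb h⟩
      rcases Nat.eq_zero_or_pos (l1 - A) with h | h
      · rw [hT, hc h, Ico_self, sum_empty]
        omega
      · omega
    · obtain ⟨K, hK, ha, hb', hc⟩ := fillBad hR.ν1 hR.νM
        (l1 - (A + od κ x ν (κ y) (y + 1))) (κ y + 1)
      have hT := T_moved hR hK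
      rw [← hA] at hT
      have hv : od κ x ν (κ y) (y + 1) ≤ ν (κ y) := od_le
      have := hex hx
      refine ⟨K, 0, by omega, Nat.zero_le _, by omega, by omega, ?_, by omega, fun _ => rfl,
        fun h => absurd hb h⟩
      rcases Nat.eq_zero_or_pos (l1 - (A + od κ x ν (κ y) (y + 1))) with h | h
      · rw [hT, hc h, Ico_self, sum_empty]
        omega
      · omega
  · have hg' := hg hb
    rcases Nat.eq_zero_or_pos (x y) with hx | hx
    · rcases Nat.lt_or_ge A l1 with hAl | hAl
      · obtain ⟨K, X, hK, hX, hs, hpos⟩ := fill hR.ν1 (l1 - A) (κ y)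
        have hT := T_still hR hx hK
        rw [← hA] at hT
        refine ⟨K, X, hK, hX, by omega, by omega, by omega, by omega, fun h => absurd h hb,
          by omega⟩
      · have hT := T_still hR hx (K := κ y) le_rfl
        rw [← hA, Ico_self, sum_empty] at hT
        have ho : 1 ≤ o := ho1' (by omega)
        have ho3 : 2 * M + 1 ≤ l0 → 2 ≤ o := fun h => ho2' (by omega)
        refine ⟨κ y, 0, le_rfl, Nat.zero_le _, by omega, by omega, by omega, by omega,
          fun _ => rfl, ?_⟩
        intro _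
        rcases hg' with h | h
        · omega
        · have := ho3 h
          omega
    · have hE := hex hx
      have hv : od κ x ν (κ y) (y + 1) ≤ ν (κ y) := od_le
      have hneed : A + x y ≤ l1 ∧ (A + x y = l1 → x y = ν (κ y)) := by
        rcases hg' with h | h
        · refine ⟨by omega, fun he => ?_⟩
          have : o = 0 := by omega
          have := ho0 this
          omega
        · have := ho2' (by omega)
          omega
      by_cases hcase : A + x y < l1 ∧ l1 ≤ A + ν (κ y)
      · refine ⟨κ y, l1 - A, le_rfl, by omega, by omega, ?_, ?_, ?_, fun h => absurd h hb, ?_⟩ <;>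
        omega
      · have hge : A + od κ x ν (κ y) (y + 1) ≤ l1 := by
          by_cases h : A + x y = l1
          · have := hneed.2 h; omega
          · omega
        obtain ⟨K, X, hK, hX, hs, hpos⟩ := fill hR.ν1 (l1 - (A + od κ x ν (κ y) (y + 1))) (κ y + 1)
        have hT := T_moved hR hK
        rw [← hA] at hT
        refine ⟨K, X, by omega, hX, by omega, by omega, by omega, by omega,
          fun h => absurd h hb, by omega⟩

theorem od_zero : od κ x ν c 0 = ν c := by
  unfold od mv
  rw [range_zero, filter_empty, card_empty]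
  omega

/-- the whole game -/
theorem game (ν ℓ : ℕ → ℕ) (Bd : Finset ℕ) (h1 : ∀ c, 1 ≤ ν c) (hM : ∀ c, ν c ≤ M)
    (hB0 : 0 ∉ Bd) : ∀ y, (∀ z, z + 1 < y + 1 → ℓ z ≤ ℓ (z + 1) + 1) →
    (∀ z, z + 1 < y + 1 → z + 1 ∉ Bd → (ℓ z ≤ ℓ (z + 1) ∧ M ≤ ℓ z) ∨ 2 * M + 1 ≤ ℓ z) →
    ∃ κ x : ℕ → ℕ, Run M (y + 1) ν κ x ∧
      (∀ z ≤ y, ℓ z ≤ SS κ x ν z ∧ SS κ x ν z ≤ ℓ z + M) ∧
      (∀ z ≤ y, z ∈ Bd → x z = 0) ∧ (0 < x y → SS κ x ν y = ℓ y) ∧
      2 * ∑ z ∈ range (y + 1), (SS κ x ν z - ℓ z) +
          (if y ∈ Bd then 0 else (SS κ x ν y - ℓ y) * (SS κ x ν y - ℓ y - 1)) ≤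
        2 * M * (Bd.filter (· ≤ y)).card + M * (M - 1) * cl (y + 1) Bd := by
  intro y
  induction y with
  | zero =>
    intro _ _
    obtain ⟨K, X, hK, hX, hs, hpos⟩ := fill h1 (ℓ 0) 0
    have hSS : SS (fun _ => K) (fun _ => X) ν 0 = ℓ 0 := by
      rw [SS_eq, sum_congr rfl (fun c _ => od_zero), range_eq_Ico]
      exact hs
    refine ⟨fun _ => K, fun _ => X, ⟨h1, hM, fun _ _ => le_rfl, fun _ _ => hX,
      fun _ h => absurd h (by omega)⟩, ?_, ?_, fun _ => hSS, ?_⟩
    · intro z hz
      rw [show z = 0 by omega, hSS]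
      omega
    · intro z hz hz'
      rw [show z = 0 by omega] at hz'
      exact absurd hz' hB0
    · rw [zero_add, sum_range_one, hSS, Nat.sub_self, if_neg hB0]
      simp
  | succ y ih =>
    intro hd hg
    obtain ⟨κ, x, hR, hlh, hbd, hex, hpot⟩ := ih (fun z hz => hd z (by omega))
      (fun z hz => hg z (by omega))
    obtain ⟨K, X, hK, hX, hinc, hlo, hhi, hex', hbad, hgood⟩ := choice hR (ℓ y) (ℓ (y + 1))
      (y + 1 ∈ Bd) (hlh y le_rfl).1 (hlh y le_rfl).2 hex (hd y (by omega)) (hg y (by omega))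
    obtain ⟨κ', x', hR', e1, e2, e3, e4, e5, e6⟩ := extend hR hK hX hinc
    rw [← e6] at hlo hhi hex' hgood
    refine ⟨κ', x', hR', ?_, ?_, ?_, ?_⟩
    · intro z hz
      rcases Nat.lt_or_ge y z with h | h
      · rw [show z = y + 1 by omega]; exact ⟨hlo, hhi⟩
      · rw [e5 z h]; exact hlh z h
    · intro z hz hz'
      rcases Nat.lt_or_ge y z with h | h
      · rw [show z = y + 1 by omega] at hz' ⊢
        rw [e4]; exact hbad hz'
      · rw [e2 z h]; exact hbd z h hz'
    · rw [e4]; exact hex'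
    · rw [sum_range_succ, sum_congr rfl (fun z hz => by
        rw [e5 z (by rw [mem_range] at hz; omega)])]
      have hcard : (Bd.filter (· ≤ y + 1)).card =
          (Bd.filter (· ≤ y)).card + (if y + 1 ∈ Bd then 1 else 0) := by
        have : Bd.filter (· ≤ y + 1) = Bd.filter (· ≤ y) ∪ Bd.filter (· = y + 1) := by
          rw [← filter_or]
          apply filter_congr
          intro z _
          omega
        rw [this, card_union_of_disjoint]
        · congr 1
          split_ifs with h
          · rw [filter_eq', if_pos h, card_singleton]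
          · rw [filter_eq', if_neg h, card_empty]
        · rw [disjoint_filter]
          intro z _ h1 h2
          omega
      have hcl : cl (y + 2) Bd = cl (y + 1) Bd + (if y ∈ Bd ∧ y + 1 ∉ Bd then 1 else 0) := by
        unfold cl
        have : Bd.filter (fun z => z + 1 < y + 2 ∧ z + 1 ∉ Bd) =
            Bd.filter (fun z => z + 1 < y + 1 ∧ z + 1 ∉ Bd) ∪
              Bd.filter (fun z => z = y ∧ z + 1 ∉ Bd) := by
          rw [← filter_or]
          apply filter_congr
          intro z _
          constructor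
          · rintro ⟨h1, h2⟩
            by_cases h : z = y
            · exact Or.inr ⟨h, h2⟩
            · exact Or.inl ⟨by omega, h2⟩
          · rintro (⟨h1, h2⟩ | ⟨h1, h2⟩)
            · exact ⟨by omega, h2⟩
            · exact ⟨by omega, h2⟩
        rw [this, card_union_of_disjoint]
        · congr 1
          split_ifs with h
          · rw [card_eq_one]
            refine ⟨y, ?_⟩
            ext z
            rw [mem_filter, mem_singleton]
            constructor
            · exact fun h => h.2.1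
            · rintro rfl; exact ⟨h.1, rfl, h.2⟩
          · rw [card_eq_zero, filter_eq_empty_iff]
            rintro z hz ⟨h1, h2⟩
            subst h1
            exact h ⟨hz, h2⟩
        · rw [disjoint_filter]
          intro z _ h1 h2
          omega
      rw [show y + 1 + 1 = y + 2 by omega, hcard, hcl]
      set E := SS κ x ν y - ℓ y with hE
      set E' := SS κ' x' ν (y + 1) - ℓ (y + 1) with hE'
      have hEM : E ≤ M := by have := (hlh y le_rfl).2; omega
      have hEM' : E' ≤ M := by omega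
      set Q := ∑ z ∈ range (y + 1), (SS κ x ν z - ℓ z) with hQ
      by_cases hb1 : y + 1 ∈ Bd
      · rw [if_pos hb1, if_pos hb1, if_neg (by tauto)]
        have : 0 ≤ (if y ∈ Bd then 0 else E * (E - 1)) := Nat.zero_le _
        have h3 : 2 * M * ((Bd.filter (· ≤ y)).card + 1) = 2 * M * (Bd.filter (· ≤ y)).card +
          2 * M := by ring
        simp only [add_zero]
        rw [h3]
        omega
      · have hE1 : E' ≤ E - 1 := by have := hgood hb1; omega
        rw [if_neg hb1, if_neg hb1]
        have h4 : 2 * E' + E' * (E' - 1) ≤ E * (E - 1) := by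
          rcases Nat.eq_zero_or_pos E' with h | h
          · rw [h]; simp
          · obtain ⟨a, ha⟩ : ∃ a, E' = a + 1 := ⟨E' - 1, by omega⟩
            obtain ⟨b, hb⟩ : ∃ b, E = a + 2 + b := ⟨E - (a + 2), by omega⟩
            rw [ha, hb, show a + 1 - 1 = a by omega, show a + 2 + b - 1 = a + 1 + b by omega]
            nlinarith
        by_cases hb0 : y ∈ Bd
        · rw [if_pos hb0] at hpot
          rw [if_pos ⟨hb0, hb1⟩]
          have h5 : E * (E - 1) ≤ M * (M - 1) := Nat.mul_le_mul hEM (by omega)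
          have h6 : M * (M - 1) * (cl (y + 1) Bd + 1) = M * (M - 1) * cl (y + 1) Bd +
            M * (M - 1) := by ring
          simp only [add_zero]
          rw [h6]
          omega
        · rw [if_neg hb0] at hpot
          rw [if_neg (by tauto)]
          simp only [add_zero]
          omega

theorem goalD : GoalD := by
  intro M R ν ℓ Bd hM1 h1 hM hB0 hd hg
  rcases Nat.eq_zero_or_pos R with hR | hR
  · subst hR
    refine ⟨fun _ => 0, fun _ => 0, ⟨h1, hM, fun _ h => absurd h (by omega),
      fun _ h => absurd h (by omega), fun _ h => absurd h (by omega)⟩,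
      fun _ h => absurd h (by omega), fun _ h => absurd h (by omega), ?_⟩
    rw [range_zero, sum_empty]
    exact Nat.zero_le _
  · obtain ⟨y, rfl⟩ : ∃ y, R = y + 1 := ⟨R - 1, by omega⟩
    obtain ⟨κ, x, hR', hlh, hbd, hex, hpot⟩ := game ν ℓ Bd h1 hM hB0 y hd hg
    refine ⟨κ, x, hR', fun z hz => hlh z (by omega), fun z hz => hbd z (by omega), ?_⟩
    have h2 : (Bd.filter (· ≤ y)).card ≤ Bd.card := card_filter_le _ _
    have h3 : 2 * M * (Bd.filter (· ≤ y)).card ≤ 2 * M * Bd.card := Nat.mul_le_mul_left _ h2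
    omega

end Pool.Agent.Helper43.Gm.PkD
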