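import Mathlib
import Pool.Agent.Helper43.Gm.D

set_option autoImplicit false

namespace Pool.Agent.Helper43.Gm.PkE

open Finset Pool.Agent.Lead.Sh
open Pool.Agent.Helper43.Gm.PkD (od nn_eq SS_eq od_succ od_le od_congr x_zero mono_le)

variable {κ x ν : ℕ → ℕ} {M R R' J : ℕ}

theorem run_restrict (h : Run M R' ν κ x) (hR : R ≤ R') : Run M R ν κ x :=
  ⟨h.ν1, h.νM, fun y hy => h.mono y (by omega), fun y hy => h.le y (by omega),
    fun y hy => h.inc y (by omega)⟩

/-- the number of points used -/
def KK (κ x : ℕ → ℕ) (J : ℕ) : ℕ := κ (J - 1) + (if 0 < x (J - 1) then 1 else 0)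

/-- everything becomes old at the row `J` -/
def ek (κ x : ℕ → ℕ) (J : ℕ) (y : ℕ) : ℕ := if y < J then κ y else KK κ x J

def ex (x : ℕ → ℕ) (J : ℕ) (y : ℕ) : ℕ := if y < J then x y else 0

theorem ek_lt {y : ℕ} (h : y < J) : ek κ x J y = κ y := if_pos h
theorem ek_ge {y : ℕ} (h : J ≤ y) : ek κ x J y = KK κ x J := if_neg (by omega)
theorem ex_lt {y : ℕ} (h : y < J) : ex x J y = x y := if_pos h
theorem ex_ge {y : ℕ} (h : J ≤ y) : ex x J y = 0 := if_neg (by omega)

theorem KK_ge : κ (J - 1) ≤ KK κ x J := by unfold KK; omega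

theorem run_ext (h : Run M J ν κ x) (hJ : 1 ≤ J) (R : ℕ) : Run M R ν (ek κ x J) (ex x J) := by
  refine ⟨h.ν1, h.νM, ?_, ?_, ?_⟩
  · intro y _
    rcases lt_trichotomy (y + 1) J with h1 | h1 | h1
    · rw [ek_lt (by omega), ek_lt h1]; exact h.mono y h1
    · rw [ek_lt (by omega), ek_ge (by omega)]
      have := KK_ge (κ := κ) (x := x) (J := J)
      rw [show J - 1 = y by omega] at this
      exact this
    · rw [ek_ge (by omega), ek_ge (by omega)]
  · intro y _
    rcases Nat.lt_or_ge y J with h1 | h1
    · rw [ek_lt h1, ex_lt h1]; exact h.le y h1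
    · rw [ex_ge h1]; exact Nat.zero_le _
  · intro y _ h0 he
    rcases lt_trichotomy (y + 1) J with h1 | h1 | h1
    · rw [ek_lt (y := y) (by omega), ek_lt h1] at he
      rw [ex_lt (y := y) (by omega)] at h0 ⊢
      rw [ex_lt h1]
      exact h.inc y h1 h0 he
    · rw [ek_lt (y := y) (by omega), ek_ge (y := y + 1) (by omega)] at he
      rw [ex_lt (y := y) (by omega)] at h0
      unfold KK at he
      rw [show J - 1 = y by omega, if_pos h0] at he
      omega
    · rw [ex_ge (y := y) (by omega)] at h0
      omega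

theorem nn_ext {c y : ℕ} (h : y < J) : nn (ek κ x J) (ex x J) ν c y = nn κ x ν c y := by
  rw [nn_eq, nn_eq, ek_lt h, ex_lt h]
  rw [od_congr (κ' := κ) (x' := x) (fun t ht => ek_lt (by omega)) (fun t ht => ex_lt (by omega))]

/-- a point which gives something before `J` is one of the `KK` points -/
theorem lt_KK (h : Run M J ν κ x) {c y : ℕ} (hy : y < J) (h0 : nn κ x ν c y ≠ 0) :
    c < KK κ x J := by
  obtain ⟨j, rfl⟩ : ∃ j, J = j + 1 := ⟨J - 1, by omega⟩
  have h1 : κ y ≤ κ j := mono_le h (j - y) y (by omega)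
  unfold KK
  rw [show j + 1 - 1 = j by omega]
  rw [nn_eq] at h0
  split_ifs at h0 with h2 h3
  · exact absurd rfl h0
  · rcases Nat.lt_or_ge (κ y) (κ j) with h4 | h4
    · omega
    · split_ifs with h5
      · omega
      · exact absurd (x_zero h (by omega) (j - y) y (by omega) (by omega)) h0
  · omega

theorem sum_eq_SS {y : ℕ} (N : ℕ) (hN : ∀ c, nn κ x ν c y ≠ 0 → c < N) :
    ∑ c ∈ range N, nn κ x ν c y = SS κ x ν y := by
  unfold SS
  apply le_antisymm
  · apply sum_le_sum_of_ne_zero
    intro c _ h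
    rw [mem_range]
    by_contra hc
    apply h
    rw [nn_eq, if_pos (by omega)]
  · apply sum_le_sum_of_ne_zero
    intro c _ h
    rw [mem_range]
    exact hN c h

/-- the sum over old points drops -/
theorem old_drop {N y : ℕ} (h : N ≤ κ y) (h' : N ≤ κ (y + 1)) :
    ∑ c ∈ range N, nn κ x ν c (y + 1) ≤ ∑ c ∈ range N, nn κ x ν c y - 1 := by
  have h1 : ∀ c ∈ range N, nn κ x ν c (y + 1) ≤ nn κ x ν c y - 1 := by
    intro c hc
    rw [mem_range] at hc
    rw [nn_eq, nn_eq, if_neg (by omega), if_neg (by omega), if_neg (by omega), if_neg (by omega)]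
    exact od_succ (by omega)
  rcases Nat.eq_zero_or_pos (∑ c ∈ range N, nn κ x ν c y) with h2 | h2
  · have h3 : ∑ c ∈ range N, nn κ x ν c (y + 1) ≤ ∑ c ∈ range N, nn κ x ν c y :=
      sum_le_sum (fun c hc => (h1 c hc).trans (Nat.sub_le _ _))
    omega
  · obtain ⟨c, hc, hc'⟩ := exists_ne_zero_of_sum_ne_zero (Nat.pos_iff_ne_zero.1 h2)
    have h3 : ∑ c ∈ range N, nn κ x ν c (y + 1) < ∑ c ∈ range N, nn κ x ν c y := by
      apply sum_lt_sum
      · exact fun c hc => (h1 c hc).trans (Nat.sub_le _ _)
      · exact ⟨c, hc, by have := h1 c hc; omega⟩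
    omega

theorem choose_pos' (h : ∀ c, 1 ≤ ν c) (c : ℕ) : 1 ≤ (ν c + 1).choose 2 :=
  Nat.choose_pos (by have := h c; omega)

theorem le_of_sum (h : ∀ c, 1 ≤ ν c) {K N : ℕ}
    (hs : ∑ c ∈ range K, (ν c + 1).choose 2 ≤ ∑ c ∈ range N, (ν c + 1).choose 2) : K ≤ N := by
  by_contra hcon
  push Not at hcon
  obtain ⟨t, rfl⟩ : ∃ t, K = N + (t + 1) := ⟨K - N - 1, by omega⟩
  rw [sum_range_add, sum_range_succ'] at hs
  have := choose_pos' h (N + 0)
  omega

theorem sum_desc (S : ℕ) : ∀ T, 2 * ∑ t ∈ range T, (S - 1 - t) ≤ S * (S - 1) := by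
  induction S with
  | zero => intro T; simp
  | succ S ih =>
    intro T
    rcases Nat.eq_zero_or_pos T with h | h
    · subst h; simp
    · obtain ⟨T', rfl⟩ : ∃ T', T = T' + 1 := ⟨T - 1, by omega⟩
      rw [sum_range_succ']
      have h1 : ∑ t ∈ range T', (S + 1 - 1 - (t + 1)) = ∑ t ∈ range T', (S - 1 - t) :=
        sum_congr rfl (fun t _ => by omega)
      rw [h1]
      have h2 := ih T'
      rw [show S + 1 - 1 = S by omega, Nat.sub_zero]
      rcases Nat.eq_zero_or_pos S with h3 | h3
      · subst h3; simp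
      · obtain ⟨s, rfl⟩ : ∃ s, S = s + 1 := ⟨S - 1, by omega⟩
        rw [show s + 1 - 1 = s by omega] at h2
        have h4 : (s + 1 + 1) * (s + 1) = (s + 1) * s + 2 * (s + 1) := by ring
        rw [h4, mul_add]
        rw [show s + 1 - 1 = s by omega]
        omega

theorem goalE1 (hB : GoalB) (hC : GoalC) (hD : GoalD) : GoalE1 := by
  intro M R ν ℓ Bd hM1 hR1 h1 hM hB0 hd hg W N hW hsum
  obtain ⟨κ, x, hR, hlh, hbd, hpot⟩ := hD M R ν ℓ Bd hM1 h1 hM hB0 hd hg
  obtain ⟨π, ε, hpri⟩ := hB M R ν κ x hR
  refine ⟨nn κ x ν, π, ε, hpri N, ?_⟩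
  set K := KK κ x R with hK
  -- it is enough to show `K ≤ N`
  suffices hKN : K ≤ N by
    intro y hy
    rw [sum_eq_SS N (fun c hc => lt_of_lt_of_le (lt_KK hR hy hc) hKN)]
    exact (hlh y hy).1
  have hE := run_ext hR hR1 (R + M)
  have htot : ∀ c ∈ range K, ∑ y ∈ range (R + M), nn (ek κ x R) (ex x R) ν c y =
      (ν c + 1).choose 2 := by
    intro c hc
    rw [mem_range] at hc
    exact hC M (R + M) ν _ _ hE c R (by omega) (by rw [ek_ge le_rfl]; exact hc) le_rfl
  apply le_of_sum h1
  rw [← sum_congr rfl htot, sum_comm, sum_range_add]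
  have hrows : ∑ y ∈ range R, ∑ c ∈ range K, nn (ek κ x R) (ex x R) ν c y =
      ∑ y ∈ range R, SS κ x ν y := by
    apply sum_congr rfl
    intro y hy
    rw [mem_range] at hy
    rw [sum_congr rfl (fun c _ => nn_ext hy)]
    exact sum_eq_SS K (fun c hc => lt_KK hR hy hc)
  rw [hrows]
  set U : ℕ → ℕ := fun t => ∑ c ∈ range K, nn (ek κ x R) (ex x R) ν c (R + t) with hU
  have hUdrop : ∀ t, U (t + 1) ≤ U t - 1 := by
    intro t
    simp only [hU]
    rw [show R + (t + 1) = R + t + 1 by omega]
    exact old_drop (by rw [ek_ge (by omega)]) (by rw [ek_ge (by omega)])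
  have hUt : ∀ t, U t ≤ U 0 - t := by
    intro t
    induction t with
    | zero => omega
    | succ t ih => have := hUdrop t; omega
  obtain ⟨r, hr⟩ : ∃ r, R = r + 1 := ⟨R - 1, by omega⟩
  have hr' : R - 1 = r := by omega
  have hSSr := hlh r (by omega)
  -- the row `R`
  have hU0 : U 0 ≤ (if 0 < x r then ℓ r + 2 * M else SS κ x ν r - 1) := by
    have hKr : K = κ r + (if 0 < x r then 1 else 0) := by rw [hK, KK, hr']
    have hold : ∑ c ∈ range (κ r), nn (ek κ x R) (ex x R) ν c (r + 1) ≤
        ∑ c ∈ range (κ r), nn (ek κ x R) (ex x R) ν c r - 1 := by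
      apply old_drop
      · rw [ek_lt (by omega)]
      · rw [ek_ge (by omega)]; omega
    rw [← hr, sum_congr rfl (fun c _ => nn_ext (show r < R by omega))] at hold
    have hSS : SS κ x ν r = ∑ c ∈ range (κ r), nn κ x ν c r + x r := by
      unfold SS
      rw [sum_range_succ]
      congr 1
      rw [nn_eq, if_neg (lt_irrefl _), if_pos rfl]
    simp only [hU]
    rw [add_zero]
    split_ifs with h2
    · rw [if_pos h2] at hKr
      rw [hKr, sum_range_succ]
      have : nn (ek κ x R) (ex x R) ν (κ r) R ≤ M := by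
        rw [nn_eq, ek_ge le_rfl, ← hK, if_neg (by omega), if_neg (by omega)]
        exact od_le.trans (hM _)
      omega
    · rw [if_neg h2] at hKr
      rw [hKr, add_zero]
      omega
  have hsplit : ∑ y ∈ range R, SS κ x ν y = ∑ y ∈ range R, ℓ y +
      ∑ y ∈ range R, (SS κ x ν y - ℓ y) := by
    rw [← sum_add_distrib]
    apply sum_congr rfl
    intro y hy
    rw [mem_range] at hy
    have := (hlh y hy).1
    omega
  rw [hsplit]
  rw [hr'] at hW
  set E := ∑ y ∈ range R, (SS κ x ν y - ℓ y) with hEdef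
  rcases hW with ⟨hRB, hW⟩ | hW
  · have hx : x r = 0 := hbd r (by omega) hRB
    rw [if_neg (by omega)] at hU0
    have h3 : ∑ t ∈ range M, U t ≤ ∑ t ∈ range M, (ℓ r + M - 1 - t) := by
      apply sum_le_sum
      intro t _
      have := hUt t
      omega
    have h4 := sum_desc (ℓ r + M) M
    have h5 : ∑ t ∈ range M, ∑ c ∈ range K, nn (ek κ x R) (ex x R) ν c (R + t) =
        ∑ t ∈ range M, U t := rfl
    rw [h5]
    omega
  · have h3 : ∑ t ∈ range M, U t ≤ ∑ t ∈ range M, (ℓ r + 2 * M) := by
      apply sum_le_sum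
      intro t _
      have := hUt t
      split_ifs at hU0 <;> omega
    rw [sum_const, card_range, smul_eq_mul] at h3
    have h5 : ∑ t ∈ range M, ∑ c ∈ range K, nn (ek κ x R) (ex x R) ν c (R + t) =
        ∑ t ∈ range M, U t := rfl
    have h6 : 2 * M * (ℓ r + 2 * M) = 2 * (M * (ℓ r + 2 * M)) := by ring
    rw [h6] at hW
    rw [h5]
    omega

theorem goalE2 (hB : GoalB) (hC : GoalC) (hD : GoalD) : GoalE2 := by
  intro M R J ν ℓ hM1 h1 hM hJR hd hg hend N hsum
  rcases Nat.eq_zero_or_pos J with hJ0 | hJ0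
  · subst hJ0
    have hN : N = 0 := by
      rw [range_zero, sum_empty] at hsum
      have : N ≤ 0 := le_of_sum h1 (by simpa using hsum)
      omega
    subst hN
    exact ⟨fun _ _ => 0, fun _ => 0, fun _ => 0, fun c hc => absurd hc (by omega),
      fun y _ => by simp, by simp⟩
  · obtain ⟨κ, x, hR, hlh, -, hpot⟩ := hD M J ν ℓ ∅ hM1 h1 hM (notMem_empty 0)
      (fun y hy => hd y (by omega)) (fun y hy _ => hg y hy)
    have hcl : cl J ∅ = 0 := by unfold cl; simp
    rw [card_empty, hcl, mul_zero, mul_zero, add_zero] at hpot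
    have hSS : ∀ y < J, SS κ x ν y = ℓ y := by
      intro y hy
      have h2 : ∑ y ∈ range J, (SS κ x ν y - ℓ y) = 0 := by omega
      rw [sum_eq_zero_iff] at h2
      have h3 := h2 y (mem_range.2 hy)
      have := (hlh y hy).1
      omega
    set K := KK κ x J with hK
    have hE := run_ext hR hJ0 (R + M)
    obtain ⟨π, ε, hpri⟩ := hB M R ν _ _ (run_restrict hE (by omega : R ≤ R + M))
    have htot : ∀ c < K, ∑ y ∈ range (R + M), nn (ek κ x J) (ex x J) ν c y =
        (ν c + 1).choose 2 := fun c hc =>
      hC M (R + M) ν _ _ hE c J (by omega) (by rw [ek_ge le_rfl]; exact hc) (by omega)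
    have hKrow : ∀ y < J, ∑ c ∈ range K, nn (ek κ x J) (ex x J) ν c y = ℓ y := by
      intro y hy
      rw [sum_congr rfl (fun c _ => nn_ext hy), sum_eq_SS K (fun c hc => lt_KK hR hy hc)]
      exact hSS y hy
    have hKtot : ∑ c ∈ range K, (ν c + 1).choose 2 = ∑ y ∈ range J, ℓ y +
        ∑ t ∈ range (R + M - J), ∑ c ∈ range K, nn (ek κ x J) (ex x J) ν c (J + t) := by
      rw [← sum_congr rfl (fun c hc => htot c (mem_range.1 hc)), sum_comm,
        show R + M = J + (R + M - J) by omega, sum_range_add,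
        show J + (R + M - J) - J = R + M - J by omega]
      congr 1
      exact sum_congr rfl (fun y hy => hKrow y (mem_range.1 hy))
    have hNK : N ≤ K := le_of_sum h1 (by omega)
    have hsub : ∀ y, ∑ c ∈ range N, nn (ek κ x J) (ex x J) ν c y ≤
        ∑ c ∈ range K, nn (ek κ x J) (ex x J) ν c y := fun y =>
      sum_le_sum_of_subset (range_mono hNK)
    have hNtot : ∑ y ∈ range (R + M), ∑ c ∈ range N, nn (ek κ x J) (ex x J) ν c y =
        ∑ c ∈ range N, (ν c + 1).choose 2 := by
      rw [sum_comm]
      exact sum_congr rfl (fun c hc => htot c (by rw [mem_range] at hc; omega))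
    refine ⟨nn (ek κ x J) (ex x J) ν, π, ε, hpri N, ?_⟩
    have hκJ : ek κ x J (J - 1) = κ (J - 1) := ek_lt (by omega)
    rcases Nat.lt_or_ge (κ (J - 1)) N with hN | hN
    · -- the last point is used as well
      have hNK' : N = K := by
        have : K ≤ κ (J - 1) + 1 := by
          rw [hK, KK]; split_ifs <;> omega
        omega
      have hzero : ∀ t < R + M - J, ∑ c ∈ range K, nn (ek κ x J) (ex x J) ν c (J + t) = 0 := by
        have h2 : ∑ t ∈ range (R + M - J), ∑ c ∈ range K, nn (ek κ x J) (ex x J) ν c (J + t) =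
            0 := by rw [hNK'] at hsum; omega
        intro t ht
        exact sum_eq_zero_iff.1 h2 t (mem_range.2 ht)
      rw [hNK'] at hNtot ⊢
      refine ⟨?_, ?_⟩
      · intro y hy
        rcases Nat.lt_or_ge y J with h2 | h2
        · exact (hKrow y h2).le
        · have := hzero (y - J) (by omega)
          rw [show J + (y - J) = y by omega] at this
          omega
      · rw [← hNtot, sum_range_add _ R M]
        have : ∑ t ∈ range M, ∑ c ∈ range K, nn (ek κ x J) (ex x J) ν c (R + t) = 0 := by
          apply sum_eq_zero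
          intro t ht
          rw [mem_range] at ht
          have := hzero (R + t - J) (by omega)
          rw [show J + (R + t - J) = R + t by omega] at this
          exact this
        omega
    · -- all the points are old at the row `J - 1`
      have hold : ∀ y, J - 1 ≤ y → N ≤ ek κ x J y := by
        intro y hy
        rcases Nat.lt_or_ge y J with h2 | h2
        · rw [show y = J - 1 by omega, hκJ]; exact hN
        · rw [ek_ge h2]; exact hNK
      have hstep : ∀ y, J - 1 ≤ y → ∑ c ∈ range N, nn (ek κ x J) (ex x J) ν c (y + 1) ≤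
          ∑ c ∈ range N, nn (ek κ x J) (ex x J) ν c y - 1 := fun y hy =>
        old_drop (hold y hy) (hold (y + 1) (by omega))
      have hrow : ∀ y < R, ∑ c ∈ range N, nn (ek κ x J) (ex x J) ν c y ≤ ℓ y := by
        have h2 : ∀ t, J - 1 + t < R →
            ∑ c ∈ range N, nn (ek κ x J) (ex x J) ν c (J - 1 + t) ≤ ℓ (J - 1 + t) := by
          intro t
          induction t with
          | zero =>
            intro _
            rw [add_zero]
            exact (hsub _).trans (hKrow _ (by omega)).le
          | succ t ih =>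
            intro h
            have h3 := ih (by omega)
            have h4 := hstep (J - 1 + t) (by omega)
            have h5 := hd (J - 1 + t) (by omega)
            rw [show J - 1 + (t + 1) = J - 1 + t + 1 by omega]
            omega
        intro y hy
        rcases Nat.lt_or_ge y J with h3 | h3
        · exact (hsub _).trans (hKrow _ h3).le
        · have := h2 (y - (J - 1)) (by omega)
          rw [show J - 1 + (y - (J - 1)) = y by omega] at this
          exact this
      refine ⟨hrow, ?_⟩
      rcases hend with hend | hend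
      · rw [← hNtot, sum_range_add _ R M]
        have h2 : ∀ t, ∑ c ∈ range N, nn (ek κ x J) (ex x J) ν c (R + t) = 0 := by
          intro t
          induction t with
          | zero =>
            have h3 := hstep (R - 1) (by omega)
            have h4 := hrow (R - 1) (by omega)
            rw [show R - 1 + 1 = R by omega] at h3
            rw [add_zero]
            omega
          | succ t ih =>
            have h3 := hstep (R + t) (by omega)
            rw [show R + (t + 1) = R + t + 1 by omega]
            omega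
        rw [sum_eq_zero (fun t _ => h2 t), add_zero]
      · rw [sum_comm]
        apply sum_congr rfl
        intro c hc
        rw [mem_range] at hc
        exact hC M R ν _ _ (run_restrict hE (by omega : R ≤ R + M)) c J (by omega)
          (by rw [ek_ge le_rfl]; omega) hend

end Pool.Agent.Helper43.Gm.PkE
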