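import Mathlib
import Pool.Agent.Helper43.Gm.Goals2
import Pool.Agent.Helper18.Tw.Stage

set_option autoImplicit false

open Module

noncomputable section

namespace Pool.Agent.Helper43.Gm.PkRS

open Helper18.Shgh Helper18.Cusp Helper18.Tw

variable {n : ℕ} {a : ℕ → ℕ}

/-- the columns decrease slowly -/
theorem rr_slow9 (hR : Red n a) {j : ℕ} (h1 : 2 * j + 1 ≤ n - a 0) (h2 : 3 * j + 1 ≤ n)
    (h8 : a 8 ≤ j) : kap n a ≤ rr n a j + 9 * (j - a 8) := by
  obtain ⟨m1, m2, m3, m4, m5, m6, m7, m8⟩ := hR.chain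
  have hd := hR.hd
  have hs := hR.hsum
  have hk : kap n a = 3 * n - ∑ i ∈ Finset.range 9, a i := rfl
  rw [sum9] at hs hk
  rcases Nat.lt_or_ge j (a 2) with hj | hj
  · have e := rr_lev hR (lev_red hR.ha hR.hd) hj
    rw [sum9z] at e
    omega
  · have hadd := rr_add (n : ℤ) a j
    obtain ⟨N, hN⟩ : ∃ N : ℕ, n = N + 3 * j := ⟨n - 3 * j, by omega⟩
    have hN1 : 1 ≤ N := by omega
    set x := a 0 - j with hx
    set y := a 1 - j with hy
    have eD : finrank ℂ (YB n a j) = finrank ℂ (TP (N : ℤ) (qq 0) (qq 1) x y) := by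
      rw [YB_eq_TP (small_of hR hj), show (n : ℤ) - 3 * j = N by omega]
    have eD' : finrank ℂ (YB n a (j + 1)) =
        finrank ℂ (TP ((N : ℤ) - 3) (qq 0) (qq 1) (x - 1) (y - 1)) := by
      rw [YB_eq_TP (small_of hR (j := j + 1) (by omega)),
        show (n : ℤ) - 3 * ((j + 1 : ℕ) : ℤ) = N - 3 by push_cast; omega,
        show a 0 - (j + 1) = x - 1 by omega, show a 1 - (j + 1) = y - 1 by omega]
    rw [eD, eD'] at hadd
    have hxN : x ≤ N - 1 := by omega
    have hyx : y ≤ x := by omega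
    rcases Nat.lt_or_ge N (x + y) with hxy | hxy
    · have e1 := TP_eq_two qq01 N x y hxy
      have e2 := TP_eq_two qq01 (N - 3) (x - 1) (y - 1) (by omega)
      have e3 : ((N - 3 : ℕ) : ℤ) = (N : ℤ) - 3 := by omega
      rw [e3] at e2
      obtain ⟨p, hp⟩ : ∃ p, N = x + 1 + p := ⟨N - 1 - x, by omega⟩
      obtain ⟨q, hq⟩ : ∃ q, N = y + 1 + q := ⟨N - 1 - y, by omega⟩
      rw [show N + 1 - x = p + 2 by omega, show N + 1 - y = q + 2 by omega] at e1
      rw [show N - 3 + 1 - (x - 1) = p by omega, show N - 3 + 1 - (y - 1) = q by omega] at e2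
      rw [e1, e2] at hadd
      have e4 : rr n a j = 2 * (p + q) + 4 := by
        have : (p + 2) * (q + 2) = p * q + (2 * (p + q) + 4) := by ring
        omega
      omega
    · have e1 := TP_eq_one qq01 (n := (N : ℤ)) (by omega) (a := x) (b := y)
        (Or.inl (by have : ((x + y : ℕ) : ℤ) ≤ N := by exact_mod_cast hxy
                    push_cast at this; linarith))
      have e2 := TP_eq_one qq01 (n := (N : ℤ) - 3) (by omega) (a := x - 1) (b := y - 1) (by
        rcases Nat.eq_zero_or_pos x with h0 | h0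
        · right; omega
        · left
          rcases Nat.eq_zero_or_pos y with h3 | h3
          · omega
          · omega)
      have k1 : ∀ c : ℕ, (c : ℤ) * (c + 1) = ((c - 1 : ℕ) : ℤ) * (((c - 1 : ℕ) : ℤ) + 1) + 2 * c := by
        intro c
        have := tri_key c
        exact_mod_cast this
      rw [k1 x, k1 y] at e1
      have e3 : (rr n a j : ℤ) + finrank ℂ (TP ((N : ℤ) - 3) (qq 0) (qq 1) (x - 1) (y - 1)) =
          finrank ℂ (TP (N : ℤ) (qq 0) (qq 1) x y) := by exact_mod_cast hadd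
      have e4 : (rr n a j : ℤ) = 3 * N - x - y := by linarith
      omega

/-- a polynomial of degree smaller than its multiplicity at a point is zero -/
theorem rr_top (n : ℕ) (a : ℕ → ℕ) {j : ℕ} (h : n < a 0 + 2 * j) : rr n a j = 0 := by
  rcases Nat.lt_or_ge n (3 * j) with h1 | h1
  · exact rr_zero h1
  · have h2 : YB (n : ℤ) a j ≤ TP ((n : ℤ) - 3 * j) (qq 0) (qq 1) (a 0 - j) 0 := by
      rintro F ⟨hF1, hF2⟩
      rw [mem_TP]
      refine ⟨hF1, hF2 0 (by simp), ?_⟩
      rw [pow_zero, Ideal.one_eq_top]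
      exact Submodule.mem_top
    have h3 : finrank ℂ (YB (n : ℤ) a j) = 0 := by
      have h4 := Submodule.finrank_mono h2
      have h5 := TP_eq_two qq01 (n - 3 * j) (a 0 - j) 0 (by omega)
      rw [show n - 3 * j + 1 - (a 0 - j) = 0 by omega, zero_mul] at h5
      rw [show ((n - 3 * j : ℕ) : ℤ) = (n : ℤ) - 3 * j by omega] at h5
      omega
    rw [rr, h3, Nat.zero_sub]

theorem goalRS : GoalRS := fun n a hR => ⟨fun _ h1 h2 h8 => rr_slow9 hR h1 h2 h8,
  fun _ h => rr_top n a h⟩

end Pool.Agent.Helper43.Gm.PkRS
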