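import Mathlib
import Pool.Agent.Helper43.Gm.Goals

set_option autoImplicit false

namespace Pool.Agent.Helper43.Gm.PkC

open Finset

theorem base (ν : ℕ) : ∀ T, ν ≤ T → ∑ t ∈ range T, (ν - t) = (ν + 1).choose 2 := by
  induction ν with
  | zero => intro T _; simp
  | succ ν ih =>
    intro T hT
    obtain ⟨T', rfl⟩ : ∃ T', T = T' + 1 := ⟨T - 1, by omega⟩
    rw [sum_range_succ']
    have h1 : ∑ t ∈ range T', (ν + 1 - (t + 1)) = ∑ t ∈ range T', (ν - t) :=
      sum_congr rfl (fun t _ => by omega)
    rw [h1, ih T' (by omega), Nat.choose_succ_succ' (ν + 1) 1]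
    have h2 : (ν + 1).choose (1 + 1) = (ν + 1).choose 2 := rfl
    rw [Nat.choose_one_right, h2]
    omega

theorem pure (ν T : ℕ) (hT : ν ≤ T) : ∀ (μ : ℕ) (X : ℕ → ℕ),
    (∀ i j, i ≤ j → j < μ → X i + j ≤ X j + i) → (∀ j < μ, X j + μ ≤ ν + 1 + j) →
    ∑ j ∈ range μ, X j + ∑ t ∈ range T,
      (ν - t - ((range μ).filter (fun j => ν + j < X j + μ + t)).card) = (ν + 1).choose 2 := by
  intro μ
  induction μ with
  | zero =>
    intro X _ _
    simp only [range_zero, sum_empty, filter_empty, card_empty, Nat.sub_zero, zero_add]
    exact base ν T hT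
  | succ μ ih =>
    intro X h1 h2
    have key := ih (fun j => X (j + 1))
      (fun i j hij hj => by have := h1 (i + 1) (j + 1) (by omega) (by omega); omega)
      (fun j hj => by have := h2 (j + 1) (by omega); omega)
    rw [← key, sum_range_succ']
    have hcnt : ∀ t, ((range (μ + 1)).filter (fun j => ν + j < X j + (μ + 1) + t)).card =
        ((range μ).filter (fun j => ν + j < X (j + 1) + μ + t)).card +
          (if ν < X 0 + (μ + 1) + t then 1 else 0) := by
      intro t
      rw [card_filter, sum_range_succ', card_filter]
      congr 1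
      apply sum_congr rfl
      intro j _
      congr 1
      apply propext
      constructor <;> intro h <;> omega
    have hall : ∀ t, ν < X 0 + (μ + 1) + t →
        ((range μ).filter (fun j => ν + j < X (j + 1) + μ + t)).card = μ := by
      intro t ht
      rw [filter_true_of_mem, card_range]
      intro j hj
      rw [mem_range] at hj
      have := h1 0 (j + 1) (by omega) (by omega)
      omega
    have hX0 := h2 0 (by omega)
    have hδ : ∑ t ∈ range T, (if ν < X 0 + (μ + 1) + t ∧ t + μ + 1 ≤ ν then 1 else 0) = X 0 := by
      rw [← card_filter]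
      have : (range T).filter (fun t => ν < X 0 + (μ + 1) + t ∧ t + μ + 1 ≤ ν) =
          Ico (ν - μ - X 0) (ν - μ) := by
        ext t
        rw [mem_filter, mem_range, mem_Ico]
        constructor
        · rintro ⟨h3, h4, h5⟩; omega
        · rintro ⟨h3, h4⟩; omega
      rw [this, Nat.card_Ico]
      omega
    have hsum : ∑ t ∈ range T, (ν - t -
        ((range μ).filter (fun j => ν + j < X (j + 1) + μ + t)).card) =
        ∑ t ∈ range T, (ν - t -
          ((range (μ + 1)).filter (fun j => ν + j < X j + (μ + 1) + t)).card) + X 0 := by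
      rw [← hδ, ← sum_add_distrib]
      apply sum_congr rfl
      intro t _
      rw [hcnt t]
      by_cases hc : ν < X 0 + (μ + 1) + t
      · rw [hall t hc, if_pos hc]
        by_cases h3 : t + μ + 1 ≤ ν
        · rw [if_pos ⟨hc, h3⟩]
          omega
        · rw [if_neg (by tauto)]
          omega
      · rw [if_neg hc, if_neg (by tauto)]
        omega
    rw [hsum]
    omega

theorem goalC : GoalC := by
  intro M R ν κ x hR c z0 hz0 hc hM
  -- the first row at which `c` is old
  have hex : ∃ z, c < κ z := ⟨z0, hc⟩
  classical
  obtain ⟨s, hs⟩ : ∃ s, s = Nat.find hex := ⟨_, rfl⟩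
  have hs1 : c < κ s := hs ▸ Nat.find_spec hex
  have hs2 : ∀ y < s, κ y ≤ c := fun y hy => not_lt.1 (Nat.find_min hex (hs ▸ hy))
  have hsz : s ≤ z0 := hs ▸ Nat.find_min' hex hc
  have hs3 : ∀ t, s + t < R → c < κ (s + t) := by
    intro t
    induction t with
    | zero => intro _; exact hs1
    | succ t ih =>
      intro h
      have h1 := ih (by omega)
      have h2 := hR.mono (s + t) (by omega)
      rw [show s + (t + 1) = s + t + 1 by omega]
      omega
  -- the first moving row
  have hex2 : ∃ y, s ≤ y ∨ (κ y = c ∧ 0 < x y) := ⟨s, Or.inl le_rfl⟩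
  obtain ⟨a, ha⟩ : ∃ a, a = Nat.find hex2 := ⟨_, rfl⟩
  have ha1 : s ≤ a ∨ (κ a = c ∧ 0 < x a) := ha ▸ Nat.find_spec hex2
  have ha2 : ∀ y < a, ¬ (s ≤ y ∨ (κ y = c ∧ 0 < x y)) := fun y hy => Nat.find_min hex2 (ha ▸ hy)
  have has : a ≤ s := ha ▸ Nat.find_min' hex2 (Or.inl le_rfl)
  have hmov : ∀ j, a + j < s → κ (a + j) = c ∧ 0 < x (a + j) := by
    intro j
    induction j with
    | zero => intro h; rcases ha1 with h1 | h1 <;> [omega; exact h1]
    | succ j ih =>
      intro h
      obtain ⟨h1, h2⟩ := ih (by omega)
      have h3 := hR.mono (a + j) (by omega)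
      have h4 := hs2 (a + j + 1) (by omega)
      have h5 : κ (a + j + 1) = κ (a + j) := by omega
      have h6 := hR.inc (a + j) (by omega) h2 h5
      rw [show a + (j + 1) = a + j + 1 by omega]
      exact ⟨by omega, by omega⟩
  have hinc : ∀ j, a + j + 1 < s → x (a + j) < x (a + j + 1) := by
    intro j h
    obtain ⟨h1, h2⟩ := hmov j (by omega)
    have h3 := (hmov (j + 1) (by omega)).1
    rw [show a + (j + 1) = a + j + 1 by omega] at h3
    exact hR.inc (a + j) (by omega) h2 (by omega)
  have hmono : ∀ i k, a + (i + k) < s → x (a + i) + k ≤ x (a + (i + k)) := by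
    intro i k
    induction k with
    | zero => intro _; simp
    | succ k ih =>
      intro h
      have h1 := ih (by omega)
      have h2 := hinc (i + k) (by omega)
      rw [show a + (i + (k + 1)) = a + (i + k) + 1 by omega]
      omega
  obtain ⟨μ, hμ⟩ : ∃ μ, s = a + μ := ⟨s - a, by omega⟩
  obtain ⟨T, hT⟩ : ∃ T, R = s + T := ⟨R - s, by omega⟩
  have hTν : ν c ≤ T := by
    have := hR.νM c
    omega
  have key := pure (ν c) T hTν μ (fun j => x (a + j))
    (fun i j hij hj => by
      have := hmono i (j - i) (by omega)
      rw [show i + (j - i) = j by omega] at this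
      omega)
    (fun j hj => by
      have h1 := hmono j (μ - 1 - j) (by omega)
      have h2 := hR.le (a + (j + (μ - 1 - j))) (by omega)
      rw [(hmov (j + (μ - 1 - j)) (by omega)).1] at h2
      omega)
  rw [← key, hT, hμ, sum_range_add, sum_range_add]
  have e0 : ∑ y ∈ range a, nn κ x ν c y = 0 := by
    apply sum_eq_zero
    intro y hy
    rw [mem_range] at hy
    have h1 := ha2 y hy
    have h2 := hs2 y (by omega)
    unfold nn
    split_ifs with h3 h4
    · rfl
    · by_contra h5
      exact h1 (Or.inr ⟨h4, Nat.pos_of_ne_zero h5⟩)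
    · omega
  rw [e0, zero_add]
  congr 1
  · apply sum_congr rfl
    intro j hj
    rw [mem_range] at hj
    obtain ⟨h1, h2⟩ := hmov j (by omega)
    unfold nn
    rw [if_neg (by omega), if_pos h1]
  · apply sum_congr rfl
    intro t ht
    rw [mem_range] at ht
    rw [← hμ]
    have h1 := hs3 t (by omega)
    have hst : st κ c (s + t) = s := by
      unfold st
      have : (range (s + t)).filter (fun y => κ y ≤ c) = range s := by
        ext y
        rw [mem_filter, mem_range, mem_range]
        constructor
        · rintro ⟨h2, h3⟩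
          by_contra h4
          have := hs3 (y - s) (by omega)
          rw [show s + (y - s) = y by omega] at this
          omega
        · intro h2
          exact ⟨by omega, hs2 y h2⟩
      rw [this, card_range]
    have hmv : (mv κ x ν c (s + t)).card =
        ((range μ).filter (fun j => ν c + j < x (a + j) + μ + t)).card := by
      have : mv κ x ν c (s + t) =
          ((range μ).filter (fun j => ν c + j < x (a + j) + μ + t)).image (fun j => a + j) := by
        ext y
        unfold mv
        rw [mem_filter, mem_range, mem_image]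
        constructor
        · rintro ⟨h2, h3, h4, h5⟩
          have h6 : y < s := by
            by_contra h7
            have := hs3 (y - s) (by omega)
            rw [show s + (y - s) = y by omega] at this
            omega
          have h8 : a ≤ y := by
            by_contra h9
            exact ha2 y (by omega) (Or.inr ⟨h3, h4⟩)
          refine ⟨y - a, ?_, by omega⟩
          rw [mem_filter, mem_range, show a + (y - a) = y by omega]
          exact ⟨by omega, by omega⟩
        · rintro ⟨j, hj, rfl⟩
          rw [mem_filter, mem_range] at hj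
          obtain ⟨h2, h3⟩ := hmov j (by omega)
          exact ⟨by omega, h2, h3, by omega⟩
      rw [this, card_image_of_injective _ (fun i j h => by simpa using h)]
    unfold nn
    rw [if_neg (by omega), if_neg (by omega), hst, hmv]
    omega

end Pool.Agent.Helper43.Gm.PkC
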