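import Mathlib
import Pool.Agent.Helper54.Gm.A
import Pool.Agent.Helper53.Gm.B
import Pool.Agent.Helper43.Gm.C
import Pool.Agent.Helper43.Gm.D
import Pool.Agent.Helper43.Gm.E
import Pool.Agent.Helper58.Gm.F1
import Pool.Agent.Helper49.Gm.F2
import Pool.Agent.Helper89.Gm.G
import Pool.Agent.Helper29.Gm.G2

/-!
Assembly: the window theorem for all systems.
-/

set_option autoImplicit false

namespace Pool.Agent.Helper43.Gm

theorem goalE1 : GoalE1 := PkE.goalE1 PkB.goalB PkC.goalC PkD.goalD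
theorem goalE2 : GoalE2 := PkE.goalE2 PkB.goalB PkC.goalC PkD.goalD
theorem goalF1 : GoalF1 := PkF1.goalF1 PkA.goalA goalE1
theorem goalF2 : GoalF2 := PkF2.goalF2 PkA.goalA goalE2

theorem main_all : GoalG2 := PkG2.goalG2 (PkG.goalG goalF1 goalF2)

end Pool.Agent.Helper43.Gm
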