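import Mathlib
import Pool.Agent.Helper43.Gm.Main
import Pool.Agent.Helper86.Gm.H0
import Pool.Agent.Helper53.Gm.H1
import Pool.Agent.Helper32.Gm.H2
import Pool.Agent.Helper54.Gm.H3
import Pool.Agent.Helper60.Gm.H4
import Pool.Agent.Helper43.Gm.RS
import Pool.Agent.Helper56.Gm.I

/-!
Assembly: the window theorem for reduced systems.
-/

set_option autoImplicit false

namespace Pool.Agent.Helper43.Gm

theorem main_reduced : GoalI :=
  PkI.goalI PkH0.goalH0 (PkH1.goalH1 goalF1 goalF2) (PkH2.goalH2 goalF1 goalF2)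
    (PkH3.goalH3 goalF1 goalF2) (PkH4.goalH4 goalF1 goalF2) PkRS.goalRS

end Pool.Agent.Helper43.Gm
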